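import Pool.Agent.Q96.JM.Defs

/-!
Block matrices.
-/

set_option autoImplicit false

open scoped Matrix Matrix.Norms.L2Operator ComplexConjugate
open Matrix

namespace Q96.JM

/-- the index set of `ℂ⁹` -/
abbrev I9 : Type := (Fin 3 × Fin 2) ⊕ Fin 3
/-- the index set of `ℝ⁷` -/
abbrev I7 : Type := Fin 4 ⊕ Fin 3

abbrev M2 : Type := Matrix (Fin 2) (Fin 2) ℂ
abbrev M33 : Type := Matrix (Fin 3) (Fin 3) M2

/-- block matrices: three blocks of size two and a diagonal block of size three -/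
def bl (M : M33) (D : Fin 3 → ℂ) : Matrix I9 I9 ℂ :=
  fromBlocks (Matrix.of fun p q => M p.1 q.1 p.2 q.2) 0 0 (diagonal D)

lemma bl_add (M N : M33) (D E : Fin 3 → ℂ) : bl M D + bl N E = bl (M + N) (D + E) := by
  unfold bl
  rw [fromBlocks_add]
  congr 1
  · rw [add_zero]
  · rw [add_zero]
  · rw [diagonal_add]; rfl

lemma bl_smul (c : ℂ) (M : M33) (D : Fin 3 → ℂ) : c • bl M D = bl (c • M) (c • D) := by
  unfold bl
  rw [fromBlocks_smul]
  congr 1
  · rw [smul_zero]
  · rw [smul_zero]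
  · rw [diagonal_smul]

lemma bl_mul (M N : M33) (D E : Fin 3 → ℂ) : bl M D * bl N E = bl (M * N) (D * E) := by
  unfold bl
  rw [fromBlocks_multiply]
  congr 1
  · rw [Matrix.zero_mul, add_zero]
    ext p q
    simp only [Matrix.mul_apply, Matrix.of_apply, Fintype.sum_prod_type, Matrix.sum_apply]
  · simp
  · simp
  · rw [Matrix.zero_mul, zero_add, diagonal_mul_diagonal]
    rfl

lemma bl_one : bl 1 1 = 1 := by
  unfold bl
  rw [← fromBlocks_one]
  congr 1
  ext ⟨a, k⟩ ⟨b, l⟩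
  simp only [Matrix.of_apply, Matrix.one_apply, Prod.mk.injEq]
  by_cases h : a = b
  · subst h; simp [Matrix.one_apply]
  · simp [h]

lemma bl_zero : bl 0 0 = 0 := by
  unfold bl
  rw [← fromBlocks_zero]
  congr 1
  exact diagonal_zero

lemma bl_neg (M : M33) (D : Fin 3 → ℂ) : -bl M D = bl (-M) (-D) := by
  rw [← neg_one_smul ℂ (bl M D), bl_smul, neg_one_smul, neg_one_smul]

lemma bl_sub (M N : M33) (D E : Fin 3 → ℂ) : bl M D - bl N E = bl (M - N) (D - E) := by
  rw [sub_eq_add_neg, bl_neg, bl_add, ← sub_eq_add_neg, ← sub_eq_add_neg]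

lemma bl_conj (M : M33) (D : Fin 3 → ℂ) : (bl M D)ᴴ = bl Mᴴ (star D) := by
  unfold bl
  rw [fromBlocks_conjTranspose]
  congr 1
  · simp
  · simp
  · rw [diagonal_conjTranspose]

lemma bl_pow (M : M33) (D : Fin 3 → ℂ) (r : ℕ) : bl M D ^ r = bl (M ^ r) (D ^ r) := by
  induction r with
  | zero => rw [pow_zero, pow_zero, pow_zero, bl_one]
  | succ r ih => rw [pow_succ, ih, bl_mul, ← pow_succ, ← pow_succ]

/-- a `3 × 3` matrix of blocks -/
def m3 (a b c d e f g h i : M2) : M33 := !![a, b, c; d, e, f; g, h, i]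

lemma m3_add (a b c d e f g h i a' b' c' d' e' f' g' h' i' : M2) :
    m3 a b c d e f g h i + m3 a' b' c' d' e' f' g' h' i' =
      m3 (a + a') (b + b') (c + c') (d + d') (e + e') (f + f') (g + g') (h + h') (i + i') := by
  ext p q : 2
  fin_cases p <;> fin_cases q <;> rfl

lemma m3_sub (a b c d e f g h i a' b' c' d' e' f' g' h' i' : M2) :
    m3 a b c d e f g h i - m3 a' b' c' d' e' f' g' h' i' =
      m3 (a - a') (b - b') (c - c') (d - d') (e - e') (f - f') (g - g') (h - h') (i - i') := by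
  ext p q : 2
  fin_cases p <;> fin_cases q <;> rfl

lemma m3_neg (a b c d e f g h i : M2) :
    -m3 a b c d e f g h i = m3 (-a) (-b) (-c) (-d) (-e) (-f) (-g) (-h) (-i) := by
  ext p q : 2
  fin_cases p <;> fin_cases q <;> rfl

lemma m3_smul (z : ℂ) (a b c d e f g h i : M2) :
    z • m3 a b c d e f g h i =
      m3 (z • a) (z • b) (z • c) (z • d) (z • e) (z • f) (z • g) (z • h) (z • i) := by
  ext p q : 2
  fin_cases p <;> fin_cases q <;> rfl

lemma m3_mul (a b c d e f g h i a' b' c' d' e' f' g' h' i' : M2) :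
    m3 a b c d e f g h i * m3 a' b' c' d' e' f' g' h' i' =
      m3 (a * a' + b * d' + c * g') (a * b' + b * e' + c * h') (a * c' + b * f' + c * i')
        (d * a' + e * d' + f * g') (d * b' + e * e' + f * h') (d * c' + e * f' + f * i')
        (g * a' + h * d' + i * g') (g * b' + h * e' + i * h') (g * c' + h * f' + i * i') := by
  unfold m3
  rw [Matrix.mul_fin_three]

lemma m3_conj (a b c d e f g h i : M2) :
    (m3 a b c d e f g h i)ᴴ = m3 aᴴ dᴴ gᴴ bᴴ eᴴ hᴴ cᴴ fᴴ iᴴ := by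
  ext p q : 2
  fin_cases p <;> fin_cases q <;> rfl

lemma m3_zero : m3 0 0 0 0 0 0 0 0 0 = 0 := by
  ext p q : 2
  fin_cases p <;> fin_cases q <;> rfl

lemma m3_one : m3 1 0 0 0 1 0 0 0 1 = 1 := by
  ext p q : 2
  fin_cases p <;> fin_cases q <;> rfl

/-- the nilpotent `x` -/
def xx : M2 := !![0, 0; 1, 0]
/-- its adjoint -/
def xs : M2 := !![0, 1; 0, 0]

lemma xx_conj : xxᴴ = xs := by
  ext i j; fin_cases i <;> fin_cases j <;> simp [xx, xs]

lemma xs_conj : xsᴴ = xx := by rw [← xx_conj, conjTranspose_conjTranspose]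

lemma xs_sq : xs * xs = 0 := by
  ext i j; fin_cases i <;> fin_cases j <;> simp [xs, Matrix.mul_apply]

/-- Hermitian `2 × 2` matrices -/
noncomputable def cm (y : Fin 4 → ℝ) : M2 :=
  !![(y 0 : ℂ), (y 2 : ℂ) + y 3 * Complex.I; (y 2 : ℂ) - y 3 * Complex.I, (y 1 : ℂ)]

lemma cm_conj (y : Fin 4 → ℝ) : (cm y)ᴴ = cm y := by
  ext i j; fin_cases i <;> fin_cases j <;> simp [cm, sub_eq_add_neg]

end Q96.JM
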