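import Mathlib

/-!
The 1-jet map of lifts of stationary discs of a model quadric.
-/

set_option autoImplicit false

open scoped Matrix Matrix.Norms.L2Operator ComplexConjugate
open Matrix

namespace Q96.JM

variable {ι κ : Type} [Fintype ι] [DecidableEq ι] [Fintype κ]

/-- `P = ∑ a_j A_j` -/
noncomputable def Pm (A : κ → Matrix ι ι ℂ) (a : κ → ℂ) : Matrix ι ι ℂ := ∑ j, a j • A j

/-- `A = ∑ (b_j - a_j - conj a_j) A_j` -/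
noncomputable def Am (A : κ → Matrix ι ι ℂ) (b : κ → ℝ) (a : κ → ℂ) : Matrix ι ι ℂ :=
  ∑ j, ((b j : ℂ) - a j - conj (a j)) • A j

/-- `X` is a solution of `P X² + A X + P* = 0` of (Euclidean operator) norm less than one -/
def IsSol (A : κ → Matrix ι ι ℂ) (b : κ → ℝ) (a : κ → ℂ) (X : Matrix ι ι ℂ) : Prop :=
  ‖X‖ < 1 ∧ Pm A a * X ^ 2 + Am A b a * X + (Pm A a)ᴴ = 0

open Classical in
/-- the solution `X` -/
noncomputable def Xm (A : κ → Matrix ι ι ℂ) (b : κ → ℝ) (a : κ → ℂ) : Matrix ι ι ℂ :=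
  if h : ∃ X, IsSol A b a X then h.choose else 0

/-- `K_j = ∑_r X*^r A_j X^r` -/
noncomputable def Km (A : κ → Matrix ι ι ℂ) (b : κ → ℝ) (a : κ → ℂ) (j : κ) : Matrix ι ι ℂ :=
  ∑' r : ℕ, (Xm A b a)ᴴ ^ r * A j * (Xm A b a) ^ r

/-- the real matrix `Re ∑_r V* X*^r A_j A⁻¹ A_s X^r V` of `D(a)`-nondegeneracy -/
noncomputable def Dm (A : κ → Matrix ι ι ℂ) (b : κ → ℝ) (a : κ → ℂ) (V : ι → ℂ) : Matrix κ κ ℝ :=
  Matrix.of fun j s => (∑' r : ℕ, star V ⬝ᵥ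
    (((Xm A b a)ᴴ ^ r * A j * (Am A b a)⁻¹ * A s * (Xm A b a) ^ r) *ᵥ V)).re

/-- the 1-jet map `(a, V) ↦ (V, (V* (I - X*) K_j (I - X) V)_j, Im a)` -/
noncomputable def jmap (A : κ → Matrix ι ι ℂ) (b : κ → ℝ) (p : (κ → ℂ) × (ι → ℂ)) :
    (ι → ℂ) × (κ → ℝ) × (κ → ℝ) :=
  (p.2, fun j => (star p.2 ⬝ᵥ
      (((1 - (Xm A b p.1)ᴴ) * Km A b p.1 j * (1 - Xm A b p.1)) *ᵥ p.2)).re,
    fun j => (p.1 j).im)

lemma Xm_eq {A : κ → Matrix ι ι ℂ} {b : κ → ℝ} {a : κ → ℂ} {X : Matrix ι ι ℂ}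
    (h : IsSol A b a X) (hu : ∀ Y, IsSol A b a Y → Y = X) : Xm A b a = X := by
  have hex : ∃ X, IsSol A b a X := ⟨X, h⟩
  unfold Xm
  rw [dif_pos hex]
  exact hu _ hex.choose_spec

end Q96.JM
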