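import Pool.Agent.Q96.JM.Gen

/-!
Differentiability of the sum `∑_r X*^r A X^r`.
-/

set_option autoImplicit false

open scoped Topology
open Filter

namespace Q96.JM

/-- differentiability of `∑_r g^r B f^r` -/
lemma diff_K_abs {E F : Type} [NormedRing E] [NormedAlgebra ℝ E] [CompleteSpace E]
    [NormedAddCommGroup F] [NormedSpace ℝ F] {f g : F → E} {y₀ : F}
    (hf : DifferentiableAt ℝ f y₀) (hg : DifferentiableAt ℝ g y₀)
    (h0 : ‖g y₀‖ * ‖f y₀‖ < 1) (B : E) :
    DifferentiableAt ℝ (fun y => ∑' r : ℕ, g y ^ r * B * f y ^ r) y₀ := by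
  set T : F → (E →L[ℝ] E) := fun y =>
    ContinuousLinearMap.mulLeftRight ℝ E (g y) (f y) with hT
  have hTd : DifferentiableAt ℝ T y₀ := by
    refine DifferentiableAt.clm_apply ?_ hf
    exact ((ContinuousLinearMap.mulLeftRight ℝ E).differentiableAt).comp y₀ hg
  have hTn : ‖T y₀‖ < 1 :=
    (ContinuousLinearMap.opNorm_mulLeftRight_apply_apply_le ℝ E _ _).trans_lt h0
  have hpow : ∀ y (r : ℕ), (T y ^ r) B = g y ^ r * B * f y ^ r := by
    intro y r
    induction r with
    | zero => simp
    | succ r ih =>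
      rw [pow_succ', mul_apply_eq_comp, ih]
      show g y * _ * f y = _
      rw [pow_succ' (g y), pow_succ (f y)]
      simp only [mul_assoc]
  have hu : IsUnit (1 - T y₀) := isUnit_one_sub_of_norm_lt_one hTn
  have h1 : DifferentiableAt ℝ (fun y => Ring.inverse (1 - T y) B) y₀ := by
    refine DifferentiableAt.clm_apply ?_ (differentiableAt_const _)
    exact (differentiableAt_inverse hu).comp y₀ ((differentiableAt_const _).sub hTd)
  refine h1.congr_of_eventuallyEq ?_
  have hev : ∀ᶠ y in 𝓝 y₀, ‖T y‖ < 1 :=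
    (hTd.continuousAt.norm).eventually (gt_mem_nhds hTn)
  filter_upwards [hev] with y hy
  have e1 : Ring.inverse (1 - T y) = ∑' r : ℕ, T y ^ r := by
    rw [NormedRing.inverse_one_sub _ hy]
    rfl
  rw [e1]
  have hs : Summable fun r : ℕ => T y ^ r := summable_geometric_of_norm_lt_one hy
  have := (ContinuousLinearMap.apply ℝ E B).map_tsum hs
  rw [ContinuousLinearMap.apply_apply] at this
  rw [this]
  refine tsum_congr fun r => ?_
  rw [ContinuousLinearMap.apply_apply, hpow]

end Q96.JM
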