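import Pool.Agent.Q96.JM.Blk

/-!
The matrices of the example.
-/

set_option autoImplicit false

open scoped Matrix Matrix.Norms.L2Operator ComplexConjugate
open Matrix

namespace Q96.JM

/-- `W = X / ε` -/
noncomputable def WW : Matrix I9 I9 ℂ := bl (m3 xs 0 0 0 0 0 0 1 0) ![0, -1, Complex.I]

/-- `G` -/
noncomputable def GG : Matrix I9 I9 ℂ := bl (m3 0 1 0 1 0 0 0 0 (-1)) 1

/-- `P' = -W* G` -/
noncomputable def PP : Matrix I9 I9 ℂ := bl (m3 0 (-xx) 0 0 0 1 0 0 0) ![0, 1, Complex.I]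

/-- `A = G + ε² W* G W` -/
noncomputable def AA (ε : ℝ) : Matrix I9 I9 ℂ :=
  bl (m3 0 1 0 1 (-((ε : ℂ) ^ 2) • 1) 0 0 0 (-1)) ![1, 1 + (ε : ℂ) ^ 2, 1 + (ε : ℂ) ^ 2]

/-- `A⁻¹` -/
noncomputable def AI (ε : ℝ) : Matrix I9 I9 ℂ :=
  bl (m3 ((ε : ℂ) ^ 2 • 1) 1 0 1 0 0 0 0 (-1))
    ![1, (1 + (ε : ℂ) ^ 2)⁻¹, (1 + (ε : ℂ) ^ 2)⁻¹]

lemma star3 (a b c : ℂ) : star ![a, b, c] = ![conj a, conj b, conj c] := by
  ext i; fin_cases i <;> rfl

lemma mul3 (a b c a' b' c' : ℂ) : ![a, b, c] * ![a', b', c'] = ![a * a', b * b', c * c'] := by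
  ext i; fin_cases i <;> rfl

lemma one3 : (1 : Fin 3 → ℂ) = ![1, 1, 1] := by
  ext i; fin_cases i <;> rfl

lemma zero3 : (0 : Fin 3 → ℂ) = ![0, 0, 0] := by
  ext i; fin_cases i <;> rfl

lemma add3 (a b c a' b' c' : ℂ) : ![a, b, c] + ![a', b', c'] = ![a + a', b + b', c + c'] := by
  ext i; fin_cases i <;> rfl

lemma smul3 (z a b c : ℂ) : z • ![a, b, c] = ![z * a, z * b, z * c] := by
  ext i; fin_cases i <;> rfl

lemma GG_conj : GGᴴ = GG := by
  unfold GG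
  rw [bl_conj, m3_conj, one3, star3]
  simp

lemma GG_sq : GG * GG = 1 := by
  unfold GG
  rw [bl_mul, ← bl_one, m3_mul, ← m3_one]
  simp

lemma WW_conj : WWᴴ = bl (m3 xx 0 0 0 0 1 0 0 0) ![0, -1, -Complex.I] := by
  unfold WW
  rw [bl_conj, m3_conj, star3, xs_conj]
  simp

lemma PP_eq : PP = -(WWᴴ * GG) := by
  rw [WW_conj]
  unfold PP GG
  rw [bl_mul, bl_neg, m3_mul, m3_neg, one3, mul3]
  congr 1
  · simp
  · ext i; fin_cases i <;> simp

lemma AA_eq (ε : ℝ) : AA ε = GG + ((ε : ℂ) ^ 2) • (WWᴴ * GG * WW) := by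
  rw [WW_conj]
  unfold AA GG WW
  rw [bl_mul, bl_mul, bl_smul, bl_add, m3_mul, m3_mul, m3_smul, m3_add, one3, mul3, mul3, smul3,
    add3]
  congr 1
  · simp [neg_smul]
  · ext i; fin_cases i <;> simp

lemma one_add_sq_ne (ε : ℝ) : (1 + (ε : ℂ) ^ 2) ≠ 0 := by
  have h : (1 + (ε : ℂ) ^ 2) = ((1 + ε ^ 2 : ℝ) : ℂ) := by push_cast; rfl
  rw [h]
  exact_mod_cast (by positivity : (1 + ε ^ 2 : ℝ) ≠ 0)

lemma AA_AI (ε : ℝ) : AA ε * AI ε = 1 := by
  have h := one_add_sq_ne ε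
  unfold AA AI
  rw [bl_mul, ← bl_one, m3_mul, ← m3_one, mul3, one3]
  congr 1
  · simp
  · rw [mul_inv_cancel₀ h, one_mul]

lemma AA_inv (ε : ℝ) : (AA ε)⁻¹ = AI ε := Matrix.inv_eq_right_inv (AA_AI ε)

/-- the matrix `c` in the first block -/
noncomputable def CC (c : M2) : Matrix I9 I9 ℂ := bl (m3 c 0 0 0 0 0 0 0 0) 0

lemma CC_add (c d : M2) : CC c + CC d = CC (c + d) := by
  unfold CC
  rw [bl_add, m3_add]
  simp

lemma CC_smul (z : ℂ) (c : M2) : z • CC c = CC (z • c) := by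
  unfold CC
  rw [bl_smul, m3_smul]
  simp

lemma CC_conj (c : M2) : (CC c)ᴴ = CC cᴴ := by
  unfold CC
  rw [bl_conj, m3_conj]
  simp

/-- the matrices of the quadric -/
noncomputable def Aex (ε : ℝ) : I7 → Matrix I9 I9 ℂ :=
  Sum.elim (fun i => CC (cm (Pi.single i 1)))
    ![(1 / 2 : ℂ) • (PP + PPᴴ), (1 / (2 * Complex.I) : ℂ) • (PP - PPᴴ), AA ε]

/-- the parameter `a` -/
noncomputable def aex (ε : ℝ) : I7 → ℂ := Sum.elim (fun _ => 0) ![(ε : ℂ), ε * Complex.I, 0]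
/-- the vector `b` -/
noncomputable def bex (ε : ℝ) : I7 → ℝ := Sum.elim (fun _ => 0) ![2 * ε, 0, 1]
/-- the directions -/
noncomputable def dex (y : Fin 4 → ℝ) : I7 → ℂ := Sum.elim (fun i => (y i : ℂ)) (fun _ => 0)

lemma cm_sum (y : Fin 4 → ℝ) : ∑ i, (y i : ℂ) • cm (Pi.single i 1) = cm y := by
  ext i j
  rw [Matrix.sum_apply]
  fin_cases i <;> fin_cases j <;> simp [cm, Fin.sum_univ_four, Pi.single_apply] <;> ring

lemma CC_sum (y : Fin 4 → ℝ) :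
    ∑ i, (y i : ℂ) • CC (cm (Pi.single i 1)) = CC (cm y) := by
  simp_rw [CC_smul]
  rw [Fin.sum_univ_four, CC_add, CC_add, CC_add, ← cm_sum y, Fin.sum_univ_four]

lemma AA_conj (ε : ℝ) : (AA ε)ᴴ = AA ε := by
  rw [AA_eq, conjTranspose_add, conjTranspose_smul, conjTranspose_mul, conjTranspose_mul,
    conjTranspose_conjTranspose, GG_conj, Matrix.mul_assoc]
  simp

lemma Aex_herm (ε : ℝ) (j : I7) : (Aex ε j)ᴴ = Aex ε j := by
  rcases j with i | i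
  · show (CC (cm (Pi.single i 1)))ᴴ = CC (cm (Pi.single i 1))
    rw [CC_conj, cm_conj]
  · fin_cases i
    · show ((1 / 2 : ℂ) • (PP + PPᴴ))ᴴ = (1 / 2 : ℂ) • (PP + PPᴴ)
      rw [conjTranspose_smul, conjTranspose_add, conjTranspose_conjTranspose, add_comm]
      simp
    · show ((1 / (2 * Complex.I) : ℂ) • (PP - PPᴴ))ᴴ = (1 / (2 * Complex.I) : ℂ) • (PP - PPᴴ)
      rw [conjTranspose_smul, conjTranspose_sub, conjTranspose_conjTranspose]
      have : star (1 / (2 * Complex.I) : ℂ) = -(1 / (2 * Complex.I)) := by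
        simp
      rw [this, neg_smul, ← smul_neg, neg_sub]
    · exact AA_conj ε

lemma Pm_ex (ε : ℝ) (y : Fin 4 → ℝ) :
    Pm (Aex ε) (aex ε + dex y) = (ε : ℂ) • PP + CC (cm y) := by
  unfold Pm
  rw [Fintype.sum_sum_type, Fin.sum_univ_three]
  have h1 : ∑ i : Fin 4, (aex ε + dex y) (Sum.inl i) • Aex ε (Sum.inl i) = CC (cm y) := by
    rw [← CC_sum]
    refine Finset.sum_congr rfl fun i _ => ?_
    simp [aex, dex, Aex]
  rw [h1]
  have e0 : (aex ε + dex y) (Sum.inr 0) = (ε : ℂ) := by simp [aex, dex]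
  have e1 : (aex ε + dex y) (Sum.inr 1) = (ε : ℂ) * Complex.I := by simp [aex, dex]
  have e2 : (aex ε + dex y) (Sum.inr 2) = 0 := by simp [aex, dex]
  rw [e0, e1, e2]
  show CC (cm y) + ((ε : ℂ) • ((1 / 2 : ℂ) • (PP + PPᴴ)) +
    ((ε : ℂ) * Complex.I) • ((1 / (2 * Complex.I) : ℂ) • (PP - PPᴴ)) + (0 : ℂ) • AA ε) = _
  have hI : (ε : ℂ) * Complex.I * (1 / (2 * Complex.I)) = (ε : ℂ) * (1 / 2) := by
    have := Complex.I_ne_zero
    field_simp
  rw [smul_smul, smul_smul, hI, zero_smul]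
  module

lemma Am_ex (ε : ℝ) (y : Fin 4 → ℝ) :
    Am (Aex ε) (bex ε) (aex ε + dex y) = AA ε - (2 : ℂ) • CC (cm y) := by
  unfold Am
  rw [Fintype.sum_sum_type, Fin.sum_univ_three]
  have h1 : ∑ i : Fin 4, ((bex ε (Sum.inl i) : ℂ) - (aex ε + dex y) (Sum.inl i) -
      conj ((aex ε + dex y) (Sum.inl i))) • Aex ε (Sum.inl i) =
      -((2 : ℂ) • CC (cm y)) := by
    rw [← CC_sum, Finset.smul_sum, ← Finset.sum_neg_distrib]
    refine Finset.sum_congr rfl fun i _ => ?_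
    have : ((bex ε (Sum.inl i) : ℂ) - (aex ε + dex y) (Sum.inl i) -
      conj ((aex ε + dex y) (Sum.inl i))) = -(2 * (y i : ℂ)) := by
      simp [aex, dex, bex]; ring
    rw [this, neg_smul, mul_smul]
    rfl
  rw [h1]
  have e0 : ((bex ε (Sum.inr 0) : ℂ) - (aex ε + dex y) (Sum.inr 0) -
      conj ((aex ε + dex y) (Sum.inr 0))) = 0 := by
    simp [aex, dex, bex]; ring
  have e1 : ((bex ε (Sum.inr 1) : ℂ) - (aex ε + dex y) (Sum.inr 1) -
      conj ((aex ε + dex y) (Sum.inr 1))) = 0 := by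
    simp [aex, dex, bex]
  have e2 : ((bex ε (Sum.inr 2) : ℂ) - (aex ε + dex y) (Sum.inr 2) -
      conj ((aex ε + dex y) (Sum.inr 2))) = 1 := by
    simp [aex, dex, bex]
  rw [e0, e1, e2, zero_smul, zero_smul, one_smul]
  show -((2 : ℂ) • CC (cm y)) + (0 + 0 + AA ε) = _
  abel

/-- the derivative of the solution -/
noncomputable def zet (ε : ℝ) (y : Fin 4 → ℝ) : M2 :=
  -(cm y - (2 * ε : ℂ) • (cm y * xs) + (ε : ℂ) ^ 2 • (xx * cm y * xs))

/-- the correction of the solution -/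
noncomputable def NN (ε : ℝ) (y : Fin 4 → ℝ) : Matrix I9 I9 ℂ :=
  bl (m3 0 0 0 (zet ε y) 0 0 0 0 0) 0

/-- the solution -/
noncomputable def XX (ε : ℝ) (y : Fin 4 → ℝ) : Matrix I9 I9 ℂ := (ε : ℂ) • WW + NN ε y

lemma XX_bl (ε : ℝ) (y : Fin 4 → ℝ) :
    XX ε y = bl (m3 ((ε : ℂ) • xs) 0 0 (zet ε y) 0 0 0 ((ε : ℂ) • 1) 0)
      ![0, -(ε : ℂ), ε * Complex.I] := by
  unfold XX WW NN
  rw [bl_smul, bl_add, m3_smul, smul3, m3_add]
  congr 1
  · simp
  · rw [add_zero]; simp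

lemma zet_eq (ε : ℝ) (y : Fin 4 → ℝ) :
    -((ε : ℂ) ^ 2 • (xx * zet ε y * xs)) - (2 * ε : ℂ) • (cm y * xs) + zet ε y + cm y = 0 := by
  unfold zet
  have h1 : xx * -(cm y - (2 * ε : ℂ) • (cm y * xs) + (ε : ℂ) ^ 2 • (xx * cm y * xs)) * xs =
      -(xx * cm y * xs) := by
    have e1 : cm y * xs * xs = 0 := by rw [Matrix.mul_assoc, xs_sq, Matrix.mul_zero]
    have e2 : xx * cm y * xs * xs = 0 := by rw [Matrix.mul_assoc (xx * cm y), xs_sq, Matrix.mul_zero]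
    rw [Matrix.mul_neg, Matrix.neg_mul, Matrix.mul_add, Matrix.mul_sub, Matrix.add_mul,
      Matrix.sub_mul, Matrix.mul_smul, Matrix.smul_mul, Matrix.mul_smul, Matrix.smul_mul]
    have e3 : xx * (cm y * xs) * xs = 0 := by rw [Matrix.mul_assoc, e1, Matrix.mul_zero]
    have e4 : xx * (xx * cm y * xs) * xs = 0 := by rw [Matrix.mul_assoc, e2, Matrix.mul_zero]
    rw [e3, e4, smul_zero, smul_zero, sub_zero, add_zero]
  rw [h1]
  module

lemma XX_eq (ε : ℝ) (y : Fin 4 → ℝ) :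
    ((ε : ℂ) • PP + CC (cm y)) * XX ε y ^ 2 +
      (AA ε - (2 : ℂ) • CC (cm y)) * XX ε y + ((ε : ℂ) • PP + CC (cm y))ᴴ = 0 := by
  have hz := zet_eq ε y
  rw [XX_bl, sq, bl_mul, m3_mul, mul3, conjTranspose_add, conjTranspose_smul, CC_conj, cm_conj]
  unfold PP AA CC
  rw [bl_conj, m3_conj, star3, bl_smul, m3_smul, smul3, bl_smul, m3_smul, bl_smul, m3_smul, smul3,
    bl_add, m3_add, bl_mul, m3_mul, bl_sub, m3_sub, bl_mul, m3_mul, bl_add, m3_add, bl_add, m3_add,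
    bl_add, m3_add, ← bl_zero, ← m3_zero]
  congr 1
  · simp only [mul_zero, zero_mul, add_zero, zero_add, smul_zero, sub_zero, zero_sub, mul_one,
      one_mul, conjTranspose_zero, conjTranspose_one, xx_conj, conjTranspose_neg]
    have hs : star (ε : ℂ) = ε := Complex.conj_ofReal ε
    rw [hs]
    congr 1
    · rw [← hz]
      have e1 : ((ε : ℂ) • xs) * ((ε : ℂ) • xs) = 0 := by
        rw [Matrix.smul_mul, Matrix.mul_smul, xs_sq, smul_zero, smul_zero]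
      rw [e1, Matrix.mul_zero]
      simp only [Matrix.smul_mul, Matrix.mul_smul, Matrix.neg_mul, smul_neg, ← Matrix.mul_assoc]
      module
    · simp only [Matrix.smul_mul, Matrix.one_mul, Matrix.neg_mul]
      module
    · simp only [Matrix.mul_smul, Matrix.mul_one]
      module
  · rw [zero3, add3]
    ext i
    fin_cases i
    · simp
    · simp; ring
    · simp
      linear_combination ((ε : ℂ) ^ 3 * Complex.I) * Complex.I_sq

end Q96.JM
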