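import Pool.Agent.Q96.JM.Defs

/-!
General facts: summability, existence and uniqueness of the solution, differentiability of the
sum, local diffeomorphisms.
-/

set_option autoImplicit false

open scoped Matrix Matrix.Norms.L2Operator ComplexConjugate Topology NNReal ENNReal
open Matrix Filter

namespace Q96.JM

section gen

variable {ι : Type} [Fintype ι] [DecidableEq ι]

lemma norm_pow_le_one (X : Matrix ι ι ℂ) (r : ℕ) :
    ‖X ^ r‖ ≤ ‖(1 : Matrix ι ι ℂ)‖ * ‖X‖ ^ r := by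
  induction r with
  | zero => simp
  | succ r ih =>
    calc ‖X ^ (r + 1)‖ ≤ ‖X ^ r‖ * ‖X‖ := by rw [pow_succ]; exact norm_mul_le _ _
      _ ≤ (‖(1 : Matrix ι ι ℂ)‖ * ‖X‖ ^ r) * ‖X‖ := by gcongr
      _ = _ := by ring

lemma summ (X B : Matrix ι ι ℂ) (h : ‖X‖ < 1) :
    Summable fun r : ℕ => Xᴴ ^ r * B * X ^ r := by
  refine Summable.of_norm_bounded
    (g := fun r => ‖(1 : Matrix ι ι ℂ)‖ ^ 2 * ‖B‖ * (‖X‖ * ‖X‖) ^ r) ?_ ?_
  · exact (summable_geometric_of_lt_one (by positivity)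
      (by nlinarith [norm_nonneg X])).mul_left _
  · intro r
    have h1 := norm_pow_le_one X r
    have h2 : ‖Xᴴ ^ r‖ ≤ ‖(1 : Matrix ι ι ℂ)‖ * ‖X‖ ^ r := by
      have := norm_pow_le_one Xᴴ r
      rwa [Matrix.l2_opNorm_conjTranspose] at this
    calc ‖Xᴴ ^ r * B * X ^ r‖ ≤ ‖Xᴴ ^ r‖ * ‖B‖ * ‖X ^ r‖ :=
          (norm_mul_le _ _).trans (mul_le_mul_of_nonneg_right (norm_mul_le _ _) (norm_nonneg _))
      _ ≤ (‖(1 : Matrix ι ι ℂ)‖ * ‖X‖ ^ r) * ‖B‖ * (‖(1 : Matrix ι ι ℂ)‖ * ‖X‖ ^ r) := by gcongr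
      _ = _ := by rw [mul_pow]; ring

/-- the quadratic form of a matrix, as a real linear functional of the matrix -/
noncomputable def qf (V : ι → ℂ) : Matrix ι ι ℂ →L[ℝ] ℝ :=
  LinearMap.toContinuousLinearMap
    { toFun := fun M => (star V ⬝ᵥ (M *ᵥ V)).re
      map_add' := fun M N => by rw [Matrix.add_mulVec, dotProduct_add, Complex.add_re]
      map_smul' := fun c M => by
        rw [Matrix.smul_mulVec, dotProduct_smul]
        simp }

lemma qf_apply (V : ι → ℂ) (M : Matrix ι ι ℂ) : qf V M = (star V ⬝ᵥ (M *ᵥ V)).re := rfl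

/-- the quadratic form of a matrix, as a complex linear functional of the matrix -/
noncomputable def qc (V : ι → ℂ) : Matrix ι ι ℂ →L[ℂ] ℂ :=
  LinearMap.toContinuousLinearMap
    { toFun := fun M => star V ⬝ᵥ (M *ᵥ V)
      map_add' := fun M N => by rw [Matrix.add_mulVec, dotProduct_add]
      map_smul' := fun c M => by
        rw [Matrix.smul_mulVec, dotProduct_smul]
        simp }

lemma qc_apply (V : ι → ℂ) (M : Matrix ι ι ℂ) : qc V M = star V ⬝ᵥ (M *ᵥ V) := rfl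

lemma qf_hasSum (X B : Matrix ι ι ℂ) (h : ‖X‖ < 1) (V : ι → ℂ) :
    HasSum (fun r : ℕ => qf V (Xᴴ ^ r * B * X ^ r))
      (∑' r : ℕ, star V ⬝ᵥ ((Xᴴ ^ r * B * X ^ r) *ᵥ V)).re := by
  have h1 : HasSum (fun r : ℕ => qc V (Xᴴ ^ r * B * X ^ r))
      (qc V (∑' r : ℕ, Xᴴ ^ r * B * X ^ r)) := (summ X B h).hasSum.mapL (qc V)
  have h2 : (∑' r : ℕ, star V ⬝ᵥ ((Xᴴ ^ r * B * X ^ r) *ᵥ V)) =
      qc V (∑' r : ℕ, Xᴴ ^ r * B * X ^ r) := h1.tsum_eq
  rw [h2]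
  exact Complex.hasSum_re h1

/-- existence and uniqueness of the solution -/
lemma exu {P A Q G : Matrix ι ι ℂ} (hG : G * G = 1) (hQ : ‖Q‖ = ‖P‖)
    (h : ‖G‖ * (‖P‖ + ‖A - G‖) ≤ 1 / 4) :
    (∃ X, ‖X‖ < 1 ∧ P * X ^ 2 + A * X + Q = 0) ∧
    ∀ X Y, ‖X‖ < 1 → ‖Y‖ < 1 → P * X ^ 2 + A * X + Q = 0 → P * Y ^ 2 + A * Y + Q = 0 → Y = X := by
  have hP0 := norm_nonneg P
  have hA0 := norm_nonneg (A - G)
  have hG0 := norm_nonneg G
  set f : Matrix ι ι ℂ → Matrix ι ι ℂ := fun X => -(G * (P * X ^ 2 + (A - G) * X + Q)) with hf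
  have hfix : ∀ X, f X = X ↔ P * X ^ 2 + A * X + Q = 0 := by
    intro X
    have e : P * X ^ 2 + (A - G) * X + Q = (P * X ^ 2 + A * X + Q) - G * X := by noncomm_ring
    simp only [hf]
    rw [e, Matrix.mul_sub, ← Matrix.mul_assoc, hG, Matrix.one_mul, neg_sub, sub_eq_self]
    constructor
    · intro h0
      calc P * X ^ 2 + A * X + Q = (G * G) * (P * X ^ 2 + A * X + Q) := by
            rw [hG, Matrix.one_mul]
        _ = G * (G * (P * X ^ 2 + A * X + Q)) := by rw [Matrix.mul_assoc]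
        _ = 0 := by rw [h0, Matrix.mul_zero]
    · intro h0
      rw [h0, Matrix.mul_zero]
  have hdiff : ∀ X Y, f X - f Y = -(G * (P * ((X - Y) * X) + P * (Y * (X - Y)) +
      (A - G) * (X - Y))) := by
    intro X Y
    simp only [hf]
    noncomm_ring
  have hlip : ∀ X Y, ‖f X - f Y‖ ≤ (‖G‖ * (‖P‖ * (‖X‖ + ‖Y‖) + ‖A - G‖)) * ‖X - Y‖ := by
    intro X Y
    rw [hdiff, norm_neg]
    have b1 : ‖P * ((X - Y) * X)‖ ≤ ‖P‖ * (‖X - Y‖ * ‖X‖) :=
      (norm_mul_le _ _).trans (mul_le_mul_of_nonneg_left (norm_mul_le _ _) hP0)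
    have b2 : ‖P * (Y * (X - Y))‖ ≤ ‖P‖ * (‖Y‖ * ‖X - Y‖) :=
      (norm_mul_le _ _).trans (mul_le_mul_of_nonneg_left (norm_mul_le _ _) hP0)
    have b3 : ‖(A - G) * (X - Y)‖ ≤ ‖A - G‖ * ‖X - Y‖ := norm_mul_le _ _
    have b4 : ‖P * ((X - Y) * X) + P * (Y * (X - Y)) + (A - G) * (X - Y)‖ ≤
        ‖P‖ * (‖X - Y‖ * ‖X‖) + ‖P‖ * (‖Y‖ * ‖X - Y‖) + ‖A - G‖ * ‖X - Y‖ := by
      refine (norm_add_le _ _).trans (add_le_add ((norm_add_le _ _).trans (add_le_add b1 b2)) b3)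
    calc ‖G * (P * ((X - Y) * X) + P * (Y * (X - Y)) + (A - G) * (X - Y))‖
        ≤ ‖G‖ * (‖P‖ * (‖X - Y‖ * ‖X‖) + ‖P‖ * (‖Y‖ * ‖X - Y‖) + ‖A - G‖ * ‖X - Y‖) :=
          (norm_mul_le _ _).trans (mul_le_mul_of_nonneg_left b4 hG0)
      _ = _ := by ring
  refine ⟨?_, ?_⟩
  · have hmaps : Set.MapsTo f (Metric.closedBall 0 (1 / 2)) (Metric.closedBall 0 (1 / 2)) := by
      intro X hX
      rw [mem_closedBall_zero_iff] at hX ⊢
      have b1 : ‖P * X ^ 2‖ ≤ ‖P‖ * (‖X‖ * ‖X‖) := by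
        rw [sq]
        exact (norm_mul_le _ _).trans (mul_le_mul_of_nonneg_left (norm_mul_le _ _) hP0)
      have b2 : ‖(A - G) * X‖ ≤ ‖A - G‖ * ‖X‖ := norm_mul_le _ _
      have b3 : ‖P * X ^ 2 + (A - G) * X + Q‖ ≤ ‖P‖ * (‖X‖ * ‖X‖) + ‖A - G‖ * ‖X‖ + ‖P‖ := by
        refine (norm_add_le _ _).trans (add_le_add ((norm_add_le _ _).trans (add_le_add b1 b2)) ?_)
        rw [hQ]
      have b4 : ‖f X‖ ≤ ‖G‖ * (‖P‖ * (‖X‖ * ‖X‖) + ‖A - G‖ * ‖X‖ + ‖P‖) := by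
        simp only [hf]
        rw [norm_neg]
        exact (norm_mul_le _ _).trans (mul_le_mul_of_nonneg_left b3 hG0)
      have b5 : ‖P‖ * (‖X‖ * ‖X‖) + ‖A - G‖ * ‖X‖ + ‖P‖ ≤ 2 * (‖P‖ + ‖A - G‖) := by
        have := norm_nonneg X
        have c1 : ‖X‖ * ‖X‖ ≤ 1 / 4 := by nlinarith
        nlinarith
      have b6 : ‖G‖ * (‖P‖ * (‖X‖ * ‖X‖) + ‖A - G‖ * ‖X‖ + ‖P‖) ≤
          ‖G‖ * (2 * (‖P‖ + ‖A - G‖)) := mul_le_mul_of_nonneg_left b5 hG0
      linarith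
    have hcontr : ContractingWith (1 / 2 : ℝ≥0) (hmaps.restrict f _ _) := by
      refine ⟨by
        rw [← NNReal.coe_lt_coe]
        norm_num, LipschitzWith.of_dist_le_mul ?_⟩
      rintro ⟨X, hX⟩ ⟨Y, hY⟩
      rw [mem_closedBall_zero_iff] at hX hY
      rw [Subtype.dist_eq, Subtype.dist_eq]
      show dist (f X) (f Y) ≤ ((1 / 2 : ℝ≥0) : ℝ) * dist X Y
      rw [dist_eq_norm, dist_eq_norm]
      have c1 : ‖G‖ * (‖P‖ * (‖X‖ + ‖Y‖) + ‖A - G‖) ≤ 1 / 2 := by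
        have : ‖P‖ * (‖X‖ + ‖Y‖) + ‖A - G‖ ≤ ‖P‖ + ‖A - G‖ := by nlinarith
        have := mul_le_mul_of_nonneg_left this hG0
        linarith
      have c2 : ((1 / 2 : ℝ≥0) : ℝ) = 1 / 2 := by norm_num
      rw [c2]
      exact (hlip X Y).trans (mul_le_mul_of_nonneg_right c1 (norm_nonneg _))
    obtain ⟨X, hX, hfX, -⟩ := hcontr.exists_fixedPoint' (Metric.isClosed_closedBall.isComplete)
      hmaps (x := 0) (by simp) (edist_ne_top _ _)
    rw [mem_closedBall_zero_iff] at hX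
    exact ⟨X, by linarith, (hfix X).mp hfX⟩
  · intro X Y hX hY hX0 hY0
    have e1 := (hfix X).mpr hX0
    have e2 := (hfix Y).mpr hY0
    have h1 := hlip Y X
    rw [e1, e2] at h1
    have c1 : ‖G‖ * (‖P‖ * (‖Y‖ + ‖X‖) + ‖A - G‖) ≤ 1 / 2 := by
      have : ‖P‖ * (‖Y‖ + ‖X‖) + ‖A - G‖ ≤ 2 * (‖P‖ + ‖A - G‖) := by nlinarith
      have := mul_le_mul_of_nonneg_left this hG0
      linarith
    have h2 : ‖Y - X‖ ≤ 1 / 2 * ‖Y - X‖ :=
      h1.trans (mul_le_mul_of_nonneg_right c1 (norm_nonneg _))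
    have h3 : ‖Y - X‖ = 0 := by
      have := norm_nonneg (Y - X)
      linarith
    exact sub_eq_zero.mp (norm_eq_zero.mp h3)

lemma unit_gen {A G : Matrix ι ι ℂ} (hG : G * G = 1) (h : ‖G‖ * ‖A - G‖ < 1) : IsUnit A := by
  have h1 : A = G * (1 - G * (G - A)) := by
    rw [Matrix.mul_sub, Matrix.mul_one, ← Matrix.mul_assoc, hG, Matrix.one_mul]
    abel
  rw [h1]
  refine IsUnit.mul ⟨⟨G, G, hG, hG⟩, rfl⟩ (isUnit_one_sub_of_norm_lt_one ?_)
  refine (norm_mul_le _ _).trans_lt ?_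
  rwa [norm_sub_rev]

end gen

/-- local diffeomorphisms -/
def IsLocDiff {E F : Type} [NormedAddCommGroup E] [NormedSpace ℝ E] [NormedAddCommGroup F]
    [NormedSpace ℝ F] (f : E → F) (p : E) : Prop :=
  ∃ e : OpenPartialHomeomorph E F, p ∈ e.source ∧ Set.EqOn f e e.source ∧
    ContDiffOn ℝ 1 e e.source ∧ ContDiffOn ℝ 1 e.symm e.target

lemma not_locDiff {E F : Type} [NormedAddCommGroup E] [NormedSpace ℝ E] [NormedAddCommGroup F]
    [NormedSpace ℝ F] {f : E → F} {p w : E} (hw : w ≠ 0)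
    (h : HasDerivAt (fun t : ℝ => f (p + t • w)) 0 0) : ¬ IsLocDiff f p := by
  rintro ⟨e, hp, he, -, he2⟩
  have hfp : f p = e p := he hp
  have ht : e p ∈ e.target := e.map_source hp
  have hd : DifferentiableAt ℝ e.symm (f p) := by
    rw [hfp]
    exact (he2.differentiableOn one_ne_zero).differentiableAt (e.open_target.mem_nhds ht)
  have hd2 : HasFDerivAt e.symm (fderiv ℝ e.symm (f p)) (f (p + (0 : ℝ) • w)) := by
    rw [zero_smul, add_zero]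
    exact hd.hasFDerivAt
  have h1 : HasDerivAt (fun t : ℝ => e.symm (f (p + t • w))) (fderiv ℝ e.symm (f p) 0) 0 :=
    HasFDerivAt.comp_hasDerivAt (0 : ℝ) hd2 h
  rw [map_zero] at h1
  have h2 : HasDerivAt (fun t : ℝ => p + t • w) w 0 := by
    have := ((hasDerivAt_id (0 : ℝ)).smul_const w).const_add p
    simpa using this
  have h3 : (fun t : ℝ => e.symm (f (p + t • w))) =ᶠ[𝓝 0] fun t : ℝ => p + t • w := by
    have hc : ContinuousAt (fun t : ℝ => p + t • w) 0 := h2.continuousAt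
    have hm : ∀ᶠ t in 𝓝 (0 : ℝ), p + t • w ∈ e.source := by
      refine hc.eventually (e.open_source.mem_nhds ?_)
      show p + (0 : ℝ) • w ∈ e.source
      rw [zero_smul, add_zero]
      exact hp
    filter_upwards [hm] with t ht
    rw [he ht]
    exact e.left_inv ht
  have h4 := h2.congr_of_eventuallyEq h3
  exact hw (h4.unique h1)

end Q96.JM
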