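import Pool.Agent.Q96.JM.Pos2

/-!
The 1-jet map of the example is nowhere a local diffeomorphism over the parameter `a`.
-/

set_option autoImplicit false

open scoped Matrix Matrix.Norms.L2Operator ComplexConjugate Topology
open Matrix Filter

namespace Q96.JM

/-- a bound for the sum of the norms of the matrices -/
noncomputable def SS : ℝ :=
  (∑ i : Fin 4, ‖CC (cm (Pi.single i 1))‖) + 2 * ‖PP‖ + ‖GG‖ + ‖WW‖ ^ 2 * ‖GG‖

lemma AA_sub (ε : ℝ) (h0 : 0 < ε) (h1 : ε ≤ 1 / 2) : ‖AA ε - GG‖ ≤ ε * (‖WW‖ ^ 2 * ‖GG‖) := by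
  rw [AA_eq, add_sub_cancel_left, norm_smul]
  have e1 : ‖WWᴴ * GG * WW‖ ≤ ‖WW‖ ^ 2 * ‖GG‖ := by
    calc ‖WWᴴ * GG * WW‖ ≤ ‖WWᴴ‖ * ‖GG‖ * ‖WW‖ :=
          (norm_mul_le _ _).trans (mul_le_mul_of_nonneg_right (norm_mul_le _ _) (norm_nonneg _))
      _ = _ := by rw [Matrix.l2_opNorm_conjTranspose]; ring
  have e2 : ‖(ε : ℂ) ^ 2‖ ≤ ε := by
    rw [norm_pow, Complex.norm_real, Real.norm_eq_abs, abs_of_pos h0]
    nlinarith
  exact mul_le_mul e2 e1 (norm_nonneg _) h0.le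

lemma AA_norm (ε : ℝ) (h0 : 0 < ε) (h1 : ε ≤ 1 / 2) : ‖AA ε‖ ≤ ‖GG‖ + ‖WW‖ ^ 2 * ‖GG‖ := by
  have h := AA_sub ε h0 h1
  have h2 : ‖AA ε‖ ≤ ‖AA ε - GG‖ + ‖GG‖ := by
    calc ‖AA ε‖ = ‖(AA ε - GG) + GG‖ := by rw [sub_add_cancel]
      _ ≤ _ := norm_add_le _ _
  have h3 : 0 ≤ ‖WW‖ ^ 2 * ‖GG‖ := by positivity
  nlinarith

lemma sum_norm (ε : ℝ) (h0 : 0 < ε) (h1 : ε ≤ 1 / 2) : ∑ j, ‖Aex ε j‖ ≤ SS := by
  rw [Fintype.sum_sum_type, Fin.sum_univ_three]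
  have a1 : ‖Aex ε (Sum.inr 0)‖ ≤ ‖PP‖ := by
    show ‖(1 / 2 : ℂ) • (PP + PPᴴ)‖ ≤ ‖PP‖
    rw [norm_smul]
    have : ‖PP + PPᴴ‖ ≤ ‖PP‖ + ‖PP‖ := by
      refine (norm_add_le _ _).trans ?_
      rw [Matrix.l2_opNorm_conjTranspose]
    have e : ‖(1 / 2 : ℂ)‖ = 1 / 2 := by norm_num
    rw [e]
    linarith
  have a2 : ‖Aex ε (Sum.inr 1)‖ ≤ ‖PP‖ := by
    show ‖(1 / (2 * Complex.I) : ℂ) • (PP - PPᴴ)‖ ≤ ‖PP‖
    rw [norm_smul]
    have : ‖PP - PPᴴ‖ ≤ ‖PP‖ + ‖PP‖ := by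
      refine (norm_sub_le _ _).trans ?_
      rw [Matrix.l2_opNorm_conjTranspose]
    have e : ‖(1 / (2 * Complex.I) : ℂ)‖ = 1 / 2 := by simp
    rw [e]
    linarith
  have a3 : ‖Aex ε (Sum.inr 2)‖ ≤ ‖GG‖ + ‖WW‖ ^ 2 * ‖GG‖ := AA_norm ε h0 h1
  have a4 : ∑ i : Fin 4, ‖Aex ε (Sum.inl i)‖ = ∑ i : Fin 4, ‖CC (cm (Pi.single i 1))‖ := rfl
  rw [a4]
  unfold SS
  linarith

lemma WG_le : ‖WW‖ ^ 2 * ‖GG‖ ≤ SS := by
  unfold SS
  have : 0 ≤ ∑ i : Fin 4, ‖CC (cm (Pi.single i 1))‖ := Finset.sum_nonneg fun _ _ => norm_nonneg _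
  have := norm_nonneg PP
  have := norm_nonneg GG
  linarith

lemma lin_norm (ε : ℝ) (c : I7 → ℂ) (B : ℝ) (hB : ∀ j, ‖c j‖ ≤ B) (h0 : 0 < ε) (h1 : ε ≤ 1 / 2) :
    ‖∑ j, c j • Aex ε j‖ ≤ B * SS := by
  have hB0 : 0 ≤ B := (norm_nonneg _).trans (hB (Sum.inr 0))
  calc ‖∑ j, c j • Aex ε j‖ ≤ ∑ j, ‖c j • Aex ε j‖ := norm_sum_le _ _
    _ ≤ ∑ j, B * ‖Aex ε j‖ := by
        refine Finset.sum_le_sum fun j _ => ?_
        rw [norm_smul]
        exact mul_le_mul_of_nonneg_right (hB j) (norm_nonneg _)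
    _ = B * ∑ j, ‖Aex ε j‖ := by rw [Finset.mul_sum]
    _ ≤ B * SS := mul_le_mul_of_nonneg_left (sum_norm ε h0 h1) hB0

/-- the smallness bound -/
lemma small (ε : ℝ) (h0 : 0 < ε) (h1 : ε ≤ 1 / 2) (hS : ‖GG‖ * (9 * ε * SS) ≤ 1 / 4)
    (a : I7 → ℂ) (ha : ‖a‖ ≤ 2 * ε) :
    ‖GG‖ * (‖Pm (Aex ε) a‖ + ‖Am (Aex ε) (bex ε) a - GG‖) ≤ 1 / 4 := by
  have h2 : ‖Pm (Aex ε) a‖ ≤ 2 * ε * SS :=
    lin_norm ε a (2 * ε) (fun j => (norm_le_pi_norm a j).trans ha) h0 h1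
  set c : I7 → ℂ := fun j => ((Sum.elim (fun _ => (0 : ℝ)) ![2 * ε, 0, 0] j : ℝ) : ℂ) - a j -
    conj (a j) with hc
  have h3 : Am (Aex ε) (bex ε) a - GG = (AA ε - GG) + ∑ j, c j • Aex ε j := by
    unfold Am
    rw [Fintype.sum_sum_type, Fin.sum_univ_three, Fintype.sum_sum_type, Fin.sum_univ_three]
    have e1 : ∀ i : Fin 4, ((bex ε (Sum.inl i) : ℂ) - a (Sum.inl i) - conj (a (Sum.inl i))) =
        c (Sum.inl i) := fun i => rfl
    have e2 : ((bex ε (Sum.inr 0) : ℂ) - a (Sum.inr 0) - conj (a (Sum.inr 0))) = c (Sum.inr 0) := rfl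
    have e3 : ((bex ε (Sum.inr 1) : ℂ) - a (Sum.inr 1) - conj (a (Sum.inr 1))) = c (Sum.inr 1) := rfl
    have e4 : ((bex ε (Sum.inr 2) : ℂ) - a (Sum.inr 2) - conj (a (Sum.inr 2))) =
        1 + c (Sum.inr 2) := by
      simp [hc, bex]
      ring
    have e5 : Aex ε (Sum.inr 2) = AA ε := rfl
    simp_rw [e1]
    rw [e2, e3, e4, e5, add_smul, one_smul]
    abel
  have h4 : ∀ j, ‖c j‖ ≤ 6 * ε := by
    intro j
    have b1 : ‖a j‖ ≤ 2 * ε := (norm_le_pi_norm a j).trans ha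
    have b2 : ‖conj (a j)‖ = ‖a j‖ := Complex.norm_conj _
    have b3 : ‖((Sum.elim (fun _ => (0 : ℝ)) ![2 * ε, 0, 0] j : ℝ) : ℂ)‖ ≤ 2 * ε := by
      rw [Complex.norm_real]
      rcases j with i | i
      · simp; positivity
      · fin_cases i
        · simp [abs_of_pos h0]
        · simp; positivity
        · simp; positivity
    calc ‖c j‖ ≤ ‖((Sum.elim (fun _ => (0 : ℝ)) ![2 * ε, 0, 0] j : ℝ) : ℂ) - a j‖ + ‖conj (a j)‖ :=
          norm_sub_le _ _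
      _ ≤ ‖((Sum.elim (fun _ => (0 : ℝ)) ![2 * ε, 0, 0] j : ℝ) : ℂ)‖ + ‖a j‖ + ‖conj (a j)‖ := by
          gcongr
          exact norm_sub_le _ _
      _ ≤ 6 * ε := by rw [b2]; linarith
  have h5 : ‖Am (Aex ε) (bex ε) a - GG‖ ≤ ε * (‖WW‖ ^ 2 * ‖GG‖) + 6 * ε * SS := by
    rw [h3]
    exact (norm_add_le _ _).trans (add_le_add (AA_sub ε h0 h1) (lin_norm ε c _ h4 h0 h1))
  have h6 : ε * (‖WW‖ ^ 2 * ‖GG‖) ≤ ε * SS := mul_le_mul_of_nonneg_left WG_le h0.le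
  have h7 : ‖Pm (Aex ε) a‖ + ‖Am (Aex ε) (bex ε) a - GG‖ ≤ 9 * ε * SS := by linarith
  exact (mul_le_mul_of_nonneg_left h7 (norm_nonneg _)).trans hS

lemma uniq_sol (ε : ℝ) (h0 : 0 < ε) (h1 : ε ≤ 1 / 2) (hS : ‖GG‖ * (9 * ε * SS) ≤ 1 / 4)
    (a : I7 → ℂ) (ha : ‖a‖ ≤ 2 * ε) :
    IsUnit (Am (Aex ε) (bex ε) a) ∧ ∃! X, IsSol (Aex ε) (bex ε) a X := by
  have h := small ε h0 h1 hS a ha
  have hG := norm_nonneg GG
  have hP := norm_nonneg (Pm (Aex ε) a)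
  refine ⟨unit_gen GG_sq ?_, ?_⟩
  · nlinarith
  · obtain ⟨⟨X, hX, hX2⟩, hu⟩ := exu (Q := (Pm (Aex ε) a)ᴴ) GG_sq
      (Matrix.l2_opNorm_conjTranspose _) h
    exact ⟨X, ⟨hX, hX2⟩, fun Y hY => hu X Y hX hY.1 hX2 hY.2⟩

lemma Xm_XX (ε : ℝ) (h0 : 0 < ε) (h1 : ε ≤ 1 / 2) (hS : ‖GG‖ * (9 * ε * SS) ≤ 1 / 4)
    (y : Fin 4 → ℝ) (ha : ‖aex ε + dex y‖ ≤ 2 * ε) (hX : ‖XX ε y‖ < 1) :
    Xm (Aex ε) (bex ε) (aex ε + dex y) = XX ε y := by
  have hsol : IsSol (Aex ε) (bex ε) (aex ε + dex y) (XX ε y) := by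
    refine ⟨hX, ?_⟩
    rw [Pm_ex, Am_ex]
    exact XX_eq ε y
  refine Xm_eq hsol fun Y hY => ?_
  exact (uniq_sol ε h0 h1 hS _ ha).2.unique hY hsol

lemma aex_norm (ε : ℝ) (h0 : 0 < ε) : ‖aex ε‖ ≤ ε := by
  rw [pi_norm_le_iff_of_nonneg h0.le]
  intro j
  rcases j with i | i
  · simp [aex, h0.le]
  · fin_cases i
    · simp [aex, abs_of_pos h0]
    · simp [aex, abs_of_pos h0]
    · simp [aex, h0.le]

lemma dex_norm (y : Fin 4 → ℝ) : ‖dex y‖ ≤ ‖y‖ := by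
  rw [pi_norm_le_iff_of_nonneg (norm_nonneg _)]
  intro j
  rcases j with i | i
  · show ‖((y i : ℝ) : ℂ)‖ ≤ _
    rw [Complex.norm_real]
    exact norm_le_pi_norm y i
  · simp [dex]

lemma dex_zero : dex 0 = 0 := by
  funext j
  rcases j with i | i <;> simp [dex]

lemma eps_exists (δ : ℝ) (hδ : 0 < δ) : ∃ ε : ℝ, 0 < ε ∧ ε < δ ∧ ε ≤ 1 / 2 ∧
    ‖GG‖ * (9 * ε * SS) ≤ 1 / 4 ∧ ε * ‖WW‖ < 1 := by
  have hG := norm_nonneg GG
  have hW := norm_nonneg WW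
  have hSS : 0 ≤ SS := by
    refine le_trans ?_ WG_le
    positivity
  refine ⟨min (δ / 2) (min (1 / 2) (min (1 / (36 * ((‖GG‖ + 1) * (SS + 1)))) (1 / (‖WW‖ + 2)))),
    ?_, ?_, ?_, ?_, ?_⟩
  · have : 0 < 1 / (36 * ((‖GG‖ + 1) * (SS + 1))) := by positivity
    have : 0 < 1 / (‖WW‖ + 2) := by positivity
    refine lt_min (by linarith) (lt_min (by norm_num) (lt_min (by assumption) (by assumption)))
  · exact (min_le_left _ _).trans_lt (by linarith)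
  · exact (min_le_right _ _).trans (min_le_left _ _)
  · set ε := min (δ / 2) (min (1 / 2) (min (1 / (36 * ((‖GG‖ + 1) * (SS + 1)))) (1 / (‖WW‖ + 2))))
    have h : ε ≤ 1 / (36 * ((‖GG‖ + 1) * (SS + 1))) :=
      (min_le_right _ _).trans ((min_le_right _ _).trans (min_le_left _ _))
    have h2 : ε * (36 * ((‖GG‖ + 1) * (SS + 1))) ≤ 1 := by
      rwa [le_div_iff₀ (by positivity)] at h
    have h3 : 0 ≤ ε := by
      have : 0 < 1 / (36 * ((‖GG‖ + 1) * (SS + 1))) := by positivity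
      have : 0 < 1 / (‖WW‖ + 2) := by positivity
      refine le_min (by linarith) (le_min (by norm_num) (le_min ?_ ?_)) <;> linarith
    have h4 : ‖GG‖ * SS ≤ (‖GG‖ + 1) * (SS + 1) := by nlinarith
    have h5 : ε * (‖GG‖ * SS) ≤ ε * ((‖GG‖ + 1) * (SS + 1)) := mul_le_mul_of_nonneg_left h4 h3
    nlinarith
  · set ε := min (δ / 2) (min (1 / 2) (min (1 / (36 * ((‖GG‖ + 1) * (SS + 1)))) (1 / (‖WW‖ + 2))))
    have h : ε ≤ 1 / (‖WW‖ + 2) :=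
      (min_le_right _ _).trans ((min_le_right _ _).trans (min_le_right _ _))
    calc ε * ‖WW‖ ≤ 1 / (‖WW‖ + 2) * ‖WW‖ := mul_le_mul_of_nonneg_right h hW
      _ < 1 := by
        rw [one_div, inv_mul_lt_iff₀ (by positivity)]
        linarith

lemma XX0_norm (ε : ℝ) (h0 : 0 < ε) (hW : ε * ‖WW‖ < 1) : ‖XX ε 0‖ < 1 := by
  rw [XX_zero, norm_smul, Complex.norm_real, Real.norm_eq_abs, abs_of_pos h0]
  exact hW

/-- the direction in which the derivative of the jet map vanishes -/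
lemma deriv_zero (ε : ℝ) (h0 : 0 < ε) (h1 : ε ≤ 1 / 2) (hS : ‖GG‖ * (9 * ε * SS) ≤ 1 / 4)
    (hW : ε * ‖WW‖ < 1) (V : I9 → ℂ) :
    ∃ w : (I7 → ℂ) × (I9 → ℂ), w ≠ 0 ∧
      HasDerivAt (fun t : ℝ => jmap (Aex ε) (bex ε) ((aex ε, V) + t • w)) 0 0 := by
  have hX0 := XX0_norm ε h0 hW
  -- the kernel
  set L : (Fin 4 → ℝ) →ₗ[ℝ] (Fin 3 → ℝ) :=
    LinearMap.pi fun k => ((fderiv ℝ (ph ε V (Sum.inr k)) 0 : (Fin 4 → ℝ) →L[ℝ] ℝ) :
      (Fin 4 → ℝ) →ₗ[ℝ] ℝ) with hL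
  have hker : LinearMap.ker L ≠ ⊥ := by
    refine LinearMap.ker_ne_bot_of_finrank_lt ?_
    simp
  obtain ⟨y, hyk, hy⟩ := Submodule.exists_mem_ne_zero_of_ne_bot hker
  have hyL : ∀ k, fderiv ℝ (ph ε V (Sum.inr k)) 0 y = 0 := by
    intro k
    have := congrFun (LinearMap.mem_ker.mp hyk) k
    exact this
  refine ⟨(dex y, 0), ?_, ?_⟩
  · intro h
    have h2 : dex y = 0 := congrArg Prod.fst h
    apply hy
    funext i
    have := congrFun h2 (Sum.inl i)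
    have h3 : ((y i : ℝ) : ℂ) = 0 := this
    exact_mod_cast h3
  have hline : HasDerivAt (fun t : ℝ => t • y) y 0 := by
    have := (hasDerivAt_id (0 : ℝ)).smul_const y
    simpa using this
  have hlc : ContinuousAt (fun t : ℝ => t • y) 0 := hline.continuousAt
  have ev1 : ∀ᶠ t in 𝓝 (0 : ℝ), ‖XX ε (t • y)‖ < 1 := by
    have hc : ContinuousAt (fun t : ℝ => ‖XX ε (t • y)‖) 0 := by
      refine ContinuousAt.norm ?_
      exact ContinuousAt.comp (f := fun t : ℝ => t • y) (x := (0 : ℝ))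
        ((XX_diff ε ((0 : ℝ) • y)).continuousAt) hlc
    refine hc.eventually (gt_mem_nhds ?_)
    show ‖XX ε ((0 : ℝ) • y)‖ < 1
    rw [zero_smul]
    exact hX0
  have ev2 : ∀ᶠ t in 𝓝 (0 : ℝ), ‖t • y‖ < ε := by
    refine hlc.norm.eventually (gt_mem_nhds ?_)
    show ‖(0 : ℝ) • y‖ < ε
    rw [zero_smul, norm_zero]
    exact h0
  have hev : (fun t : ℝ => jmap (Aex ε) (bex ε) ((aex ε, V) + t • (dex y, 0))) =ᶠ[𝓝 0]
      fun t : ℝ => (V, (fun j => ph ε V j (t • y)), fun j => (aex ε j).im) := by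
    filter_upwards [ev1, ev2] with t ht1 ht2
    have e1 : (aex ε, V) + t • ((dex y, 0) : (I7 → ℂ) × (I9 → ℂ)) = (aex ε + dex (t • y), V) := by
      refine Prod.ext ?_ ?_
      · show aex ε + t • dex y = aex ε + dex (t • y)
        congr 1
        funext j
        rcases j with i | i
        · show t • ((y i : ℝ) : ℂ) = (((t • y) i : ℝ) : ℂ)
          simp
        · show t • (0 : ℂ) = 0
          simp
      · show V + t • 0 = V
        rw [smul_zero, add_zero]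
    have hn : ‖aex ε + dex (t • y)‖ ≤ 2 * ε := by
      refine (norm_add_le _ _).trans ?_
      have := aex_norm ε h0
      have := dex_norm (t • y)
      linarith
    have hXm := Xm_XX ε h0 h1 hS (t • y) hn ht1
    rw [e1]
    unfold jmap Km
    simp only [hXm]
    refine Prod.ext rfl (Prod.ext rfl ?_)
    funext j
    show ((aex ε + dex (t • y)) j).im = (aex ε j).im
    rw [Pi.add_apply, Complex.add_im]
    rcases j with i | i
    · show _ + (((t • y) i : ℝ) : ℂ).im = _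
      rw [Complex.ofReal_im, add_zero]
    · show _ + (0 : ℂ).im = _
      rw [Complex.zero_im, add_zero]
  refine HasDerivAt.congr_of_eventuallyEq ?_ hev
  have hph : ∀ j, HasDerivAt (fun t : ℝ => ph ε V j (t • y)) 0 0 := by
    intro j
    rcases j with i | k
    · have : (fun t : ℝ => ph ε V (Sum.inl i) (t • y)) =ᶠ[𝓝 0]
          fun _ => ph ε V (Sum.inl i) 0 := by
        filter_upwards [ev1] with t ht
        exact ph_const ε V i _ ht hX0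
      exact (hasDerivAt_const _ _).congr_of_eventuallyEq this
    · have hd : HasFDerivAt (ph ε V (Sum.inr k)) (fderiv ℝ (ph ε V (Sum.inr k)) 0)
          ((0 : ℝ) • y) := by
        rw [zero_smul]
        exact (ph_diff ε V _ hX0).hasFDerivAt
      have h2 := hd.comp_hasDerivAt (0 : ℝ) hline
      rw [hyL k] at h2
      exact h2
  have hp : HasDerivAt (fun t : ℝ => fun j => ph ε V j (t • y)) (0 : I7 → ℝ) 0 :=
    hasDerivAt_pi.mpr hph
  exact (hasDerivAt_const (0 : ℝ) V).prodMk (hp.prodMk (hasDerivAt_const _ _))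

/-- strong nondegeneracy of the example -/
lemma posDef_ex (ε : ℝ) (h0 : 0 < ε) (h1 : ε ≤ 1 / 2) (hS : ‖GG‖ * (9 * ε * SS) ≤ 1 / 4)
    (hW : ε * ‖WW‖ < 1) : (Dm (Aex ε) (bex ε) (aex ε) (VV (5 / ε))).PosDef := by
  have hX0 := XX0_norm ε h0 hW
  have hA0 : aex ε + dex 0 = aex ε := by rw [dex_zero, add_zero]
  have hXm : Xm (Aex ε) (bex ε) (aex ε) = XX ε 0 := by
    have := Xm_XX ε h0 h1 hS 0 (by rw [hA0]; linarith [aex_norm ε h0]) hX0
    rwa [hA0] at this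
  have hAm : (Am (Aex ε) (bex ε) (aex ε))⁻¹ = AI ε := by
    have := Am_ex ε 0
    rw [hA0] at this
    have hc0 : cm 0 = 0 := by
      have := cm_smul 0 0
      rw [smul_zero, Complex.ofReal_zero, zero_smul] at this
      exact this
    have hC0 : CC 0 = 0 := by unfold CC; rw [m3_zero, bl_zero]
    rw [hc0, hC0, smul_zero, sub_zero] at this
    rw [this, AA_inv]
  have hn : ‖Xm (Aex ε) (bex ε) (aex ε)‖ < 1 := by rw [hXm]; exact hX0
  refine Matrix.PosDef.of_dotProduct_mulVec_pos ?_ ?_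
  · refine Dm_symm _ _ _ _ hn (Aex_herm ε) ?_
    rw [hAm]
    unfold AI
    rw [bl_conj, m3_conj, star3]
    congr 1
    · simp
    · ext i; fin_cases i <;> simp
  · intro y hy
    have hq := Dm_quad (Aex ε) (bex ε) (aex ε) (VV (5 / ε)) hn y
    rw [hXm, hAm] at hq
    have e0 : star y = y := by
      funext j
      exact star_trivial _
    rw [e0, ← hq.tsum_eq]
    have hs : Summable (tm ε (5 / ε) y) := hq.summable
    have h2 : ∑ r ∈ Finset.range 2, tm ε (5 / ε) y r ≤ ∑' r, tm ε (5 / ε) y r := by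
      refine hs.sum_le_tsum _ fun r hr => ?_
      rw [Finset.mem_range, not_lt] at hr
      exact tm_ge_two ε _ y r hr
    rw [Finset.sum_range_succ, Finset.sum_range_one] at h2
    exact (tm_pos h0 h1 y hy).trans_le h2

lemma linInd_ex (ε : ℝ) : LinearIndependent ℝ (Aex ε) := by
  rw [Fintype.linearIndependent_iff]
  intro g hg
  have hS : Sy (Aex ε) g = 0 := by
    rw [← hg]
    unfold Sy
    rfl
  rw [Sy_ex] at hS
  have h1 : ∀ k : Fin 3, (![(g (Sum.inr 2) : ℂ), g (Sum.inr 0) + g (Sum.inr 2) * (1 + (ε : ℂ) ^ 2),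
      g (Sum.inr 1) + g (Sum.inr 2) * (1 + (ε : ℂ) ^ 2)] : Fin 3 → ℂ) k = 0 := by
    intro k
    have := congrFun (congrFun hS (Sum.inr k)) (Sum.inr k)
    unfold bl at this
    rw [fromBlocks_apply₂₂, diagonal_apply_eq] at this
    exact this
  have g2 : g (Sum.inr 2) = 0 := by
    have : (g (Sum.inr 2) : ℂ) = 0 := h1 0
    exact_mod_cast this
  have g0 : g (Sum.inr 0) = 0 := by
    have : (g (Sum.inr 0) : ℂ) + g (Sum.inr 2) * (1 + (ε : ℂ) ^ 2) = 0 := h1 1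
    rw [g2, Complex.ofReal_zero, zero_mul, add_zero] at this
    exact_mod_cast this
  have g1 : g (Sum.inr 1) = 0 := by
    have : (g (Sum.inr 1) : ℂ) + g (Sum.inr 2) * (1 + (ε : ℂ) ^ 2) = 0 := h1 2
    rw [g2, Complex.ofReal_zero, zero_mul, add_zero] at this
    exact_mod_cast this
  have h2 : ∀ i j : Fin 2, cm (cc g) i j = 0 := by
    intro i j
    have := congrFun (congrFun hS (Sum.inl (0, i))) (Sum.inl (0, j))
    unfold bl at this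
    rw [fromBlocks_apply₁₁] at this
    exact this
  have c0 : g (Sum.inl 0) = 0 := by
    have : (cc g 0 : ℂ) = 0 := h2 0 0
    exact_mod_cast this
  have c1 : g (Sum.inl 1) = 0 := by
    have : (cc g 1 : ℂ) = 0 := h2 1 1
    exact_mod_cast this
  have c23 : (cc g 2 : ℂ) + cc g 3 * Complex.I = 0 := h2 0 1
  have c2 : g (Sum.inl 2) = 0 := by
    have h := congrArg Complex.re c23
    have h' : cc g 2 = 0 := by simpa using h
    exact h'
  have c3 : g (Sum.inl 3) = 0 := by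
    have h := congrArg Complex.im c23
    have h' : cc g 3 = 0 := by simpa using h
    exact h'
  intro k
  rcases k with i | i
  · fin_cases i
    · exact c0
    · exact c1
    · exact c2
    · exact c3
  · fin_cases i
    · exact g0
    · exact g1
    · exact g2

lemma Am_zero {ι κ : Type} [Fintype ι] [DecidableEq ι] [Fintype κ] (A : κ → Matrix ι ι ℂ)
    (b : κ → ℝ) : Am A b 0 = ∑ j, (b j : ℂ) • A j := by
  unfold Am
  simp

theorem main (δ : ℝ) (hδ : 0 < δ) :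
    ∃ (A : I7 → Matrix I9 I9 ℂ) (b : I7 → ℝ) (a : I7 → ℂ),
      (∀ j, (A j).IsHermitian) ∧ LinearIndependent ℝ A ∧ IsUnit (∑ j, (b j : ℂ) • A j) ∧
      ‖a‖ < δ ∧
      (∀ a' : I7 → ℂ, ‖a'‖ ≤ 2 * ‖a‖ → IsUnit (Am A b a') ∧ ∃! X, IsSol A b a' X) ∧
      (∃ V, (Dm A b a V).PosDef) ∧
      ∀ V, ¬ IsLocDiff (jmap A b) (a, V) ∧
        ∃ w : (I7 → ℂ) × (I9 → ℂ), w ≠ 0 ∧
          HasDerivAt (fun t : ℝ => jmap A b ((a, V) + t • w)) 0 0 := by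
  obtain ⟨ε, h0, hεδ, h1, hS, hW⟩ := eps_exists δ hδ
  refine ⟨Aex ε, bex ε, aex ε, Aex_herm ε, linInd_ex ε, ?_, (aex_norm ε h0).trans_lt hεδ, ?_,
    ⟨_, posDef_ex ε h0 h1 hS hW⟩, ?_⟩
  · rw [← Am_zero]
    refine (uniq_sol ε h0 h1 hS 0 ?_).1
    rw [norm_zero]
    positivity
  · intro a' ha'
    exact uniq_sol ε h0 h1 hS a' (by linarith [aex_norm ε h0])
  · intro V
    obtain ⟨w, hw, hd⟩ := deriv_zero ε h0 h1 hS hW V
    exact ⟨not_locDiff hw hd, w, hw, hd⟩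

end Q96.JM
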