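import Pool.Agent.Q96.JM.Val

/-!
Strong nondegeneracy of the example.
-/

set_option autoImplicit false

open scoped Matrix Matrix.Norms.L2Operator ComplexConjugate Topology
open Matrix Filter

namespace Q96.JM

section gen

variable {ι κ : Type} [Fintype ι] [DecidableEq ι] [Fintype κ] [DecidableEq κ]

/-- the sum `∑ y_j A_j` -/
noncomputable def Sy (A : κ → Matrix ι ι ℂ) (y : κ → ℝ) : Matrix ι ι ℂ := ∑ j, (y j : ℂ) • A j

lemma Dm_quad (A : κ → Matrix ι ι ℂ) (b : κ → ℝ) (a : κ → ℂ) (V : ι → ℂ)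
    (hn : ‖Xm A b a‖ < 1) (y : κ → ℝ) :
    HasSum (fun r : ℕ => qf V ((Xm A b a)ᴴ ^ r * (Sy A y * (Am A b a)⁻¹ * Sy A y) *
      (Xm A b a) ^ r)) (y ⬝ᵥ (Dm A b a V *ᵥ y)) := by
  have h1 : ∀ j s : κ, HasSum (fun r : ℕ => qf V ((Xm A b a)ᴴ ^ r *
      (A j * (Am A b a)⁻¹ * A s) * (Xm A b a) ^ r)) (Dm A b a V j s) := by
    intro j s
    have := qf_hasSum (Xm A b a) (A j * (Am A b a)⁻¹ * A s) hn V
    unfold Dm
    rw [Matrix.of_apply]
    simp only [← Matrix.mul_assoc] at this ⊢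
    exact this
  have h2 : HasSum (fun r : ℕ => ∑ j, ∑ s, y j * y s * qf V ((Xm A b a)ᴴ ^ r *
      (A j * (Am A b a)⁻¹ * A s) * (Xm A b a) ^ r)) (∑ j, ∑ s, y j * y s * Dm A b a V j s) :=
    hasSum_sum fun j _ => hasSum_sum fun s _ => (h1 j s).mul_left _
  have e1 : y ⬝ᵥ (Dm A b a V *ᵥ y) = ∑ j, ∑ s, y j * y s * Dm A b a V j s := by
    simp only [dotProduct, Matrix.mulVec, Finset.mul_sum]
    refine Finset.sum_congr rfl fun j _ => Finset.sum_congr rfl fun s _ => ?_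
    ring
  rw [e1]
  convert h2 using 2 with r
  have e2 : Sy A y * (Am A b a)⁻¹ * Sy A y =
      ∑ j, ∑ s, (y j * y s : ℝ) • (A j * (Am A b a)⁻¹ * A s) := by
    unfold Sy
    rw [Finset.sum_mul, Finset.sum_mul]
    refine Finset.sum_congr rfl fun j _ => ?_
    rw [Finset.mul_sum]
    refine Finset.sum_congr rfl fun s _ => ?_
    rw [Matrix.smul_mul, Matrix.smul_mul, Matrix.mul_smul, smul_smul]
    show _ = (((y j * y s : ℝ) : ℂ)) • (A j * (Am A b a)⁻¹ * A s)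
    rw [Complex.ofReal_mul]
  rw [e2, Finset.mul_sum, Finset.sum_mul, map_sum]
  refine Finset.sum_congr rfl fun j _ => ?_
  rw [Finset.mul_sum, Finset.sum_mul, map_sum]
  refine Finset.sum_congr rfl fun s _ => ?_
  rw [Matrix.mul_smul, Matrix.smul_mul, map_smul, smul_eq_mul]

lemma Dm_symm (A : κ → Matrix ι ι ℂ) (b : κ → ℝ) (a : κ → ℂ) (V : ι → ℂ)
    (hn : ‖Xm A b a‖ < 1) (hA : ∀ j, (A j)ᴴ = A j) (hI : ((Am A b a)⁻¹)ᴴ = (Am A b a)⁻¹) :
    (Dm A b a V).IsHermitian := by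
  have h1 : ∀ j s : κ, HasSum (fun r : ℕ => qf V ((Xm A b a)ᴴ ^ r *
      (A j * (Am A b a)⁻¹ * A s) * (Xm A b a) ^ r)) (Dm A b a V j s) := by
    intro j s
    have := qf_hasSum (Xm A b a) (A j * (Am A b a)⁻¹ * A s) hn V
    unfold Dm
    rw [Matrix.of_apply]
    simp only [← Matrix.mul_assoc] at this ⊢
    exact this
  have hq : ∀ M : Matrix ι ι ℂ, qf V Mᴴ = qf V M := by
    intro M
    rw [qf_apply, qf_apply]
    have : star V ⬝ᵥ (Mᴴ *ᵥ V) = star (star V ⬝ᵥ (M *ᵥ V)) := by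
      rw [← Matrix.star_dotProduct_star, star_star, Matrix.star_mulVec, dotProduct_comm,
        ← Matrix.dotProduct_mulVec, dotProduct_comm]
    rw [this]
    exact Complex.conj_re _
  ext j s
  rw [conjTranspose_apply, star_trivial]
  refine (h1 s j).unique ?_
  convert h1 j s using 2 with r
  rw [← hq]
  congr 1
  simp only [conjTranspose_mul, conjTranspose_pow, conjTranspose_conjTranspose, hA, hI,
    Matrix.mul_assoc]

end gen

/-- the vector `V` -/
noncomputable def VV (T : ℝ) : I9 → ℂ :=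
  Sum.elim (fun p => if p = (0, 1) then 1 else 0) (fun _ => (T : ℂ))

lemma qf_VV (T : ℝ) (M : M33) (D : Fin 3 → ℂ) :
    qf (VV T) (bl M D) = (M 0 0 1 1).re + T ^ 2 * (∑ k, D k).re := by
  rw [qf_apply]
  have h1 : star (VV T) ⬝ᵥ (bl M D *ᵥ VV T) = M 0 0 1 1 + (T : ℂ) ^ 2 * ∑ k, D k := by
    unfold VV bl
    rw [fromBlocks_mulVec]
    simp only [dotProduct, Fintype.sum_sum_type, Sum.elim_inl, Sum.elim_inr, Pi.star_apply,
      Matrix.zero_mulVec, add_zero, zero_add, Sum.elim_comp_inl, Sum.elim_comp_inr,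
      mulVec_diagonal]
    congr 1
    · simp [Matrix.mulVec, dotProduct, apply_ite]
    · rw [Finset.mul_sum]
      refine Finset.sum_congr rfl fun k _ => ?_
      simp
      ring
  rw [h1]
  simp [← Complex.ofReal_pow]

end Q96.JM
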