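import Pool.Agent.Q96.JM.Pos

/-!
Strong nondegeneracy of the example, second part.
-/

set_option autoImplicit false

open scoped Matrix Matrix.Norms.L2Operator ComplexConjugate Topology
open Matrix Filter

namespace Q96.JM

lemma PP_conj : PPᴴ = bl (m3 0 0 0 (-xs) 0 0 0 1 0) ![0, 1, -Complex.I] := by
  unfold PP
  rw [bl_conj, m3_conj, star3, conjTranspose_neg, xx_conj]
  simp

/-- the first four coordinates -/
def cc (y : I7 → ℝ) : Fin 4 → ℝ := fun i => y (Sum.inl i)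

/-- the coefficient of `P'` -/
noncomputable def hh (y : I7 → ℝ) : ℂ := (y (Sum.inr 0) - y (Sum.inr 1) * Complex.I) / 2
/-- the coefficient of `P'*` -/
noncomputable def hc (y : I7 → ℝ) : ℂ := (y (Sum.inr 0) + y (Sum.inr 1) * Complex.I) / 2

lemma Sy_ex (ε : ℝ) (y : I7 → ℝ) : Sy (Aex ε) y =
    bl (m3 (cm (cc y)) (-hh y • xx + (y (Sum.inr 2) : ℂ) • 1) 0
      (-hc y • xs + (y (Sum.inr 2) : ℂ) • 1) (-((y (Sum.inr 2) : ℂ) * ε ^ 2) • 1) (hh y • 1)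
      0 (hc y • 1) (-(y (Sum.inr 2) : ℂ) • 1))
    ![(y (Sum.inr 2) : ℂ), y (Sum.inr 0) + y (Sum.inr 2) * (1 + (ε : ℂ) ^ 2),
      y (Sum.inr 1) + y (Sum.inr 2) * (1 + (ε : ℂ) ^ 2)] := by
  unfold Sy
  rw [Fintype.sum_sum_type, Fin.sum_univ_three]
  have h1 : ∑ i : Fin 4, (y (Sum.inl i) : ℂ) • Aex ε (Sum.inl i) = CC (cm (cc y)) := by
    rw [← CC_sum]
    rfl
  rw [h1]
  show CC (cm (cc y)) + ((y (Sum.inr 0) : ℂ) • ((1 / 2 : ℂ) • (PP + PPᴴ)) +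
    (y (Sum.inr 1) : ℂ) • ((1 / (2 * Complex.I) : ℂ) • (PP - PPᴴ)) +
      (y (Sum.inr 2) : ℂ) • AA ε) = _
  have h2 : CC (cm (cc y)) + ((y (Sum.inr 0) : ℂ) • ((1 / 2 : ℂ) • (PP + PPᴴ)) +
    (y (Sum.inr 1) : ℂ) • ((1 / (2 * Complex.I) : ℂ) • (PP - PPᴴ)) +
      (y (Sum.inr 2) : ℂ) • AA ε) =
      CC (cm (cc y)) + (hh y • PP + hc y • PPᴴ + (y (Sum.inr 2) : ℂ) • AA ε) := by
    have hI : (1 / (2 * Complex.I) : ℂ) = -Complex.I / 2 := by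
      rw [div_eq_div_iff (mul_ne_zero two_ne_zero Complex.I_ne_zero) two_ne_zero]
      linear_combination (2 : ℂ) * Complex.I_sq
    unfold hh hc
    rw [hI]
    module
  rw [h2, PP_conj]
  unfold CC PP AA
  rw [bl_smul, bl_smul, bl_smul, m3_smul, m3_smul, m3_smul, smul3, smul3, smul3, bl_add, bl_add,
    bl_add, m3_add, m3_add, m3_add, add3, add3, zero_add]
  congr 1
  · simp only [smul_zero, add_zero, zero_add, smul_neg, neg_smul, smul_smul]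
  · have e1 : hh y + hc y = y (Sum.inr 0) := by unfold hh hc; ring
    have e2 : hh y * Complex.I + hc y * -Complex.I = y (Sum.inr 1) := by
      unfold hh hc
      linear_combination (-(y (Sum.inr 1) : ℂ)) * Complex.I_sq
    simp only [mul_one]
    rw [e1, e2]
    ext i
    fin_cases i <;> simp

/-- the real diagonal entries -/
noncomputable def dr (ε : ℝ) (y : I7 → ℝ) : Fin 3 → ℝ :=
  ![y (Sum.inr 2), y (Sum.inr 0) + y (Sum.inr 2) * (1 + ε ^ 2),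
    y (Sum.inr 1) + y (Sum.inr 2) * (1 + ε ^ 2)]

/-- the real diagonal entries of `A⁻¹` -/
noncomputable def er (ε : ℝ) : Fin 3 → ℝ := ![1, (1 + ε ^ 2)⁻¹, (1 + ε ^ 2)⁻¹]

/-- the squared moduli of the diagonal entries of `X` -/
noncomputable def nr (ε : ℝ) : Fin 3 → ℝ := ![0, ε ^ 2, ε ^ 2]

/-- the product `S A⁻¹ S` -/
lemma SAS (ε : ℝ) (y : I7 → ℝ) : ∃ M : M33, Sy (Aex ε) y * AI ε * Sy (Aex ε) y =
    bl M (fun k => ((dr ε y k ^ 2 * er ε k : ℝ) : ℂ)) ∧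
    M 0 0 = (cm (cc y) * (((ε : ℂ) ^ 2 • 1)) + (-hh y • xx + (y (Sum.inr 2) : ℂ) • 1)) *
      cm (cc y) + cm (cc y) * (-hc y • xs + (y (Sum.inr 2) : ℂ) • 1) := by
  rw [Sy_ex]
  unfold AI
  rw [bl_mul, bl_mul]
  refine ⟨_, congrArg _ ?_, ?_⟩
  · ext k
    fin_cases k
    · simp [dr, er, sq]
    · simp [dr, er]
      ring
    · simp [dr, er]
      ring
  · rw [m3_mul, m3_mul]
    show (_ + _ + _ : M2) = _
    simp only [mul_zero, mul_one, zero_mul, add_zero]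

lemma cm00 (c : Fin 4 → ℝ) : cm c 0 0 = c 0 := rfl
lemma cm01 (c : Fin 4 → ℝ) : cm c 0 1 = c 2 + c 3 * Complex.I := rfl
lemma cm10 (c : Fin 4 → ℝ) : cm c 1 0 = c 2 - c 3 * Complex.I := rfl
lemma cm11 (c : Fin 4 → ℝ) : cm c 1 1 = c 1 := rfl
lemma xx00 : xx 0 0 = 0 := rfl
lemma xx01 : xx 0 1 = 0 := rfl
lemma xx10 : xx 1 0 = 1 := rfl
lemma xx11 : xx 1 1 = 0 := rfl
lemma xs00 : xs 0 0 = 0 := rfl
lemma xs01 : xs 0 1 = 1 := rfl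
lemma xs10 : xs 1 0 = 0 := rfl
lemma xs11 : xs 1 1 = 0 := rfl
lemma on00 : (1 : M2) 0 0 = 1 := rfl
lemma on01 : (1 : M2) 0 1 = 0 := rfl
lemma on10 : (1 : M2) 1 0 = 0 := rfl
lemma on11 : (1 : M2) 1 1 = 1 := rfl

/-- the entry entering the term `r = 0` -/
lemma val0 (ε : ℝ) (y : I7 → ℝ) :
    (((cm (cc y) * (((ε : ℂ) ^ 2 • 1)) + (-hh y • xx + (y (Sum.inr 2) : ℂ) • 1)) *
      cm (cc y) + cm (cc y) * (-hc y • xs + (y (Sum.inr 2) : ℂ) • 1) : M2) 1 1).re =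
    ε ^ 2 * (cc y 2 ^ 2 + cc y 3 ^ 2 + cc y 1 ^ 2) + 2 * y (Sum.inr 2) * cc y 1 -
      (y (Sum.inr 0) * cc y 2 + y (Sum.inr 1) * cc y 3) := by
  have h : ((cm (cc y) * (((ε : ℂ) ^ 2 • 1)) + (-hh y • xx + (y (Sum.inr 2) : ℂ) • 1)) *
      cm (cc y) + cm (cc y) * (-hc y • xs + (y (Sum.inr 2) : ℂ) • 1) : M2) 1 1 =
      ((ε ^ 2 * (cc y 2 ^ 2 + cc y 3 ^ 2 + cc y 1 ^ 2) + 2 * y (Sum.inr 2) * cc y 1 -
      (y (Sum.inr 0) * cc y 2 + y (Sum.inr 1) * cc y 3) : ℝ) : ℂ) := by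
    unfold hh hc
    simp only [Matrix.add_apply, Matrix.mul_apply, Fin.sum_univ_two, Matrix.smul_apply,
      smul_eq_mul, cm00, cm01, cm10, cm11, xx00, xx01, xx10, xx11, xs00, xs01, xs10, xs11,
      on00, on01, on10, on11]
    push_cast
    ring_nf
    rw [Complex.I_sq]
    ring
  rw [h, Complex.ofReal_re]

/-- the entry entering the term `r = 1` -/
lemma val1 (ε : ℝ) (y : I7 → ℝ) :
    (((cm (cc y) * (((ε : ℂ) ^ 2 • 1)) + (-hh y • xx + (y (Sum.inr 2) : ℂ) • 1)) *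
      cm (cc y) + cm (cc y) * (-hc y • xs + (y (Sum.inr 2) : ℂ) • 1) : M2) 0 0).re =
    ε ^ 2 * (cc y 2 ^ 2 + cc y 3 ^ 2 + cc y 0 ^ 2) + 2 * y (Sum.inr 2) * cc y 0 := by
  have h : ((cm (cc y) * (((ε : ℂ) ^ 2 • 1)) + (-hh y • xx + (y (Sum.inr 2) : ℂ) • 1)) *
      cm (cc y) + cm (cc y) * (-hc y • xs + (y (Sum.inr 2) : ℂ) • 1) : M2) 0 0 =
      ((ε ^ 2 * (cc y 2 ^ 2 + cc y 3 ^ 2 + cc y 0 ^ 2) + 2 * y (Sum.inr 2) * cc y 0 : ℝ) : ℂ) := by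
    unfold hh hc
    simp only [Matrix.add_apply, Matrix.mul_apply, Fin.sum_univ_two, Matrix.smul_apply,
      smul_eq_mul, cm00, cm01, cm10, cm11, xx00, xx01, xx10, xx11, xs00, xs01, xs10, xs11,
      on00, on01, on10, on11]
    push_cast
    ring_nf
    rw [Complex.I_sq]
    ring
  rw [h, Complex.ofReal_re]

/-- `X` in block form -/
lemma X0_bl (ε : ℝ) : XX ε 0 =
    bl (m3 ((ε : ℂ) • xs) 0 0 0 0 0 0 ((ε : ℂ) • 1) 0) ![0, -(ε : ℂ), ε * Complex.I] := by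
  rw [XX_bl, zet_zero]

/-- the diagonal part of the terms -/
lemma diag_term (ε : ℝ) (y : I7 → ℝ) (r : ℕ) :
    star (![0, -(ε : ℂ), ε * Complex.I]) ^ r * (fun k => ((dr ε y k ^ 2 * er ε k : ℝ) : ℂ)) *
      ![0, -(ε : ℂ), ε * Complex.I] ^ r =
    fun k => ((nr ε k ^ r * (dr ε y k ^ 2 * er ε k) : ℝ) : ℂ) := by
  have h : star (![0, -(ε : ℂ), ε * Complex.I]) * ![0, -(ε : ℂ), ε * Complex.I] =
      fun k => ((nr ε k : ℝ) : ℂ) := by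
    ext k
    fin_cases k
    · simp [nr]
    · simp [nr, sq]
    · simp [nr]
      linear_combination (-(ε : ℂ) ^ 2) * Complex.I_sq
  calc star (![0, -(ε : ℂ), ε * Complex.I]) ^ r * (fun k => ((dr ε y k ^ 2 * er ε k : ℝ) : ℂ)) *
      ![0, -(ε : ℂ), ε * Complex.I] ^ r =
      (star (![0, -(ε : ℂ), ε * Complex.I]) * ![0, -(ε : ℂ), ε * Complex.I]) ^ r *
        (fun k => ((dr ε y k ^ 2 * er ε k : ℝ) : ℂ)) := by
        rw [mul_pow]; ring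
    _ = _ := by
        rw [h]
        ext k
        simp

lemma er_nonneg (ε : ℝ) (k : Fin 3) : 0 ≤ er ε k := by
  fin_cases k <;> simp [er] <;> positivity

lemma nr_nonneg (ε : ℝ) (k : Fin 3) : 0 ≤ nr ε k := by
  fin_cases k <;> simp [nr] <;> positivity

/-- the term of order `r` -/
noncomputable def tm (ε T : ℝ) (y : I7 → ℝ) (r : ℕ) : ℝ :=
  qf (VV T) ((XX ε 0)ᴴ ^ r * (Sy (Aex ε) y * AI ε * Sy (Aex ε) y) * (XX ε 0) ^ r)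

lemma tm_zero (ε T : ℝ) (y : I7 → ℝ) : tm ε T y 0 =
    ε ^ 2 * (cc y 2 ^ 2 + cc y 3 ^ 2 + cc y 1 ^ 2) + 2 * y (Sum.inr 2) * cc y 1 -
      (y (Sum.inr 0) * cc y 2 + y (Sum.inr 1) * cc y 3) +
      T ^ 2 * ∑ k, dr ε y k ^ 2 * er ε k := by
  obtain ⟨M, hM, hM0⟩ := SAS ε y
  unfold tm
  rw [pow_zero, pow_zero, Matrix.one_mul, Matrix.mul_one, hM, qf_VV, hM0, val0,
    ← Complex.ofReal_sum, Complex.ofReal_re]

lemma tm_one (ε T : ℝ) (y : I7 → ℝ) : tm ε T y 1 =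
    ε ^ 2 * (ε ^ 2 * (cc y 2 ^ 2 + cc y 3 ^ 2 + cc y 0 ^ 2) + 2 * y (Sum.inr 2) * cc y 0) +
      T ^ 2 * ∑ k, nr ε k * (dr ε y k ^ 2 * er ε k) := by
  obtain ⟨M, hM, hM0⟩ := SAS ε y
  unfold tm
  have hd := diag_term ε y 1
  rw [pow_one, pow_one] at hd
  rw [pow_one, pow_one, hM, X0_bl, bl_conj, bl_mul, bl_mul, hd, qf_VV, m3_conj]
  have e1 : (m3 ((ε : ℂ) • xs)ᴴ 0ᴴ 0ᴴ 0ᴴ 0ᴴ ((ε : ℂ) • 1)ᴴ 0ᴴ 0ᴴ 0ᴴ * M *
      m3 ((ε : ℂ) • xs) 0 0 0 0 0 0 ((ε : ℂ) • 1) 0) 0 0 =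
      ((ε : ℂ) • xs)ᴴ * M 0 0 * ((ε : ℂ) • xs) := by
    rw [Matrix.mul_apply, Fin.sum_univ_three, Matrix.mul_apply, Fin.sum_univ_three]
    show ((((ε : ℂ) • xs)ᴴ * M 0 0 + 0ᴴ * M 1 0 + 0ᴴ * M 2 0) * ((ε : ℂ) • xs) + _ * 0 + _ * 0 : M2)
      = _
    simp only [conjTranspose_zero, zero_mul, mul_zero, add_zero]
  have e2 : (((ε : ℂ) • xs)ᴴ * M 0 0 * ((ε : ℂ) • xs)) 1 1 = ((ε ^ 2 : ℝ) : ℂ) * M 0 0 0 0 := by
    rw [conjTranspose_smul, xs_conj]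
    simp only [Matrix.mul_apply, Fin.sum_univ_two, Matrix.smul_apply,
      smul_eq_mul, xx00, xx01, xx10, xx11, xs00, xs01, xs10, xs11]
    have : star (ε : ℂ) = ε := Complex.conj_ofReal ε
    rw [this]
    push_cast
    ring
  rw [e1, e2, Complex.re_ofReal_mul, hM0, val1, ← Complex.ofReal_sum, Complex.ofReal_re]
  simp only [pow_one]

lemma tm_ge_two (ε T : ℝ) (y : I7 → ℝ) (r : ℕ) (hr : 2 ≤ r) : 0 ≤ tm ε T y r := by
  obtain ⟨M, hM, hM0⟩ := SAS ε y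
  unfold tm
  have hX : (XX ε 0) ^ r = bl 0 (![0, -(ε : ℂ), ε * Complex.I] ^ r) := by
    obtain ⟨k, rfl⟩ := Nat.exists_eq_add_of_le' hr
    rw [X0_bl, bl_pow]
    congr 1
    rw [pow_add, sq, m3_mul]
    have : m3 ((ε : ℂ) • xs * (ε : ℂ) • xs + 0 * 0 + 0 * 0) ((ε : ℂ) • xs * 0 + 0 * 0 + 0 * (ε : ℂ) • 1)
      ((ε : ℂ) • xs * 0 + 0 * 0 + 0 * 0) (0 * (ε : ℂ) • xs + 0 * 0 + 0 * 0)
      (0 * 0 + 0 * 0 + 0 * (ε : ℂ) • 1) (0 * 0 + 0 * 0 + 0 * 0)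
      (0 * (ε : ℂ) • xs + (ε : ℂ) • 1 * 0 + 0 * 0) (0 * 0 + (ε : ℂ) • 1 * 0 + 0 * (ε : ℂ) • 1)
      (0 * 0 + (ε : ℂ) • 1 * 0 + 0 * 0) = 0 := by
      rw [← m3_zero]
      have e1 : ((ε : ℂ) • xs) * ((ε : ℂ) • xs) = 0 := by
        rw [Matrix.smul_mul, Matrix.mul_smul, xs_sq, smul_zero, smul_zero]
      rw [e1]
      simp only [mul_zero, zero_mul, add_zero]
    rw [this, mul_zero]
  have hXs : (XX ε 0)ᴴ ^ r = bl 0 (star ![0, -(ε : ℂ), ε * Complex.I] ^ r) := by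
    rw [← conjTranspose_pow, hX, bl_conj, conjTranspose_zero, star_pow]
  rw [hX, hXs, hM, bl_mul, bl_mul, diag_term, qf_VV, zero_mul, zero_mul]
  have h2 : (∑ k, ((nr ε k ^ r * (dr ε y k ^ 2 * er ε k) : ℝ) : ℂ)).re =
      ∑ k, nr ε k ^ r * (dr ε y k ^ 2 * er ε k) := by
    rw [← Complex.ofReal_sum, Complex.ofReal_re]
  rw [h2]
  have h3 : 0 ≤ ∑ k, nr ε k ^ r * (dr ε y k ^ 2 * er ε k) :=
    Finset.sum_nonneg fun k _ => mul_nonneg (pow_nonneg (nr_nonneg ε k) r)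
      (mul_nonneg (sq_nonneg _) (er_nonneg ε k))
  have h4 : ((0 : M33) 0 0 1 1).re = 0 := rfl
  rw [h4, zero_add]
  exact mul_nonneg (sq_nonneg T) h3

lemma sq_sum_zero {a b : ℝ} (h : a ^ 2 + b ^ 2 = 0) : a = 0 ∧ b = 0 := by
  have h1 := sq_nonneg a
  have h2 := sq_nonneg b
  exact ⟨pow_eq_zero_iff two_ne_zero |>.mp (by linarith),
    pow_eq_zero_iff two_ne_zero |>.mp (by linarith)⟩

/-- positivity of the first two terms -/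
lemma tm_pos {ε : ℝ} (h0 : 0 < ε) (h1 : ε ≤ 1 / 2) (y : I7 → ℝ) (hy : y ≠ 0) :
    0 < tm ε (5 / ε) y 0 + tm ε (5 / ε) y 1 := by
  rw [tm_zero, tm_one]
  set c := cc y with hc
  set α := y (Sum.inr 2) with hα
  set β := y (Sum.inr 0) with hβ
  set γ := y (Sum.inr 1) with hγ
  have hs : (0 : ℝ) < 1 + ε ^ 2 := by positivity
  have hs2 : 1 + ε ^ 2 ≤ 5 / 4 := by nlinarith
  have e1 : ∑ k, dr ε y k ^ 2 * er ε k = α ^ 2 +
      ((β + α * (1 + ε ^ 2)) ^ 2 + (γ + α * (1 + ε ^ 2)) ^ 2) / (1 + ε ^ 2) := by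
    rw [Fin.sum_univ_three]
    simp [dr, er]
    ring
  have e2 : 0 ≤ (5 / ε) ^ 2 * ∑ k, nr ε k * (dr ε y k ^ 2 * er ε k) :=
    mul_nonneg (sq_nonneg _) (Finset.sum_nonneg fun k _ => mul_nonneg (nr_nonneg ε k)
      (mul_nonneg (sq_nonneg _) (er_nonneg ε k)))
  have e3 : (5 / ε) ^ 2 = 25 / ε ^ 2 := by rw [div_pow]; norm_num
  have e4 : ((β + α * (1 + ε ^ 2)) ^ 2 + (γ + α * (1 + ε ^ 2)) ^ 2) / 8 ≤
      ((β + α * (1 + ε ^ 2)) ^ 2 + (γ + α * (1 + ε ^ 2)) ^ 2) / (1 + ε ^ 2) := by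
    apply div_le_div_of_nonneg_left (by positivity) hs (by linarith)
  have e5 : α ^ 2 / 2 + (β ^ 2 + γ ^ 2) / 16 ≤
      α ^ 2 + ((β + α * (1 + ε ^ 2)) ^ 2 + (γ + α * (1 + ε ^ 2)) ^ 2) / 8 := by
    have q1 : β ^ 2 / 2 - (α * (1 + ε ^ 2)) ^ 2 ≤ (β + α * (1 + ε ^ 2)) ^ 2 := by
      nlinarith [sq_nonneg (β + 2 * (α * (1 + ε ^ 2)))]
    have q2 : γ ^ 2 / 2 - (α * (1 + ε ^ 2)) ^ 2 ≤ (γ + α * (1 + ε ^ 2)) ^ 2 := by
      nlinarith [sq_nonneg (γ + 2 * (α * (1 + ε ^ 2)))]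
    have q3 : (α * (1 + ε ^ 2)) ^ 2 ≤ 25 / 16 * α ^ 2 := by
      have : (1 + ε ^ 2) ^ 2 ≤ 25 / 16 := by nlinarith
      calc (α * (1 + ε ^ 2)) ^ 2 = α ^ 2 * (1 + ε ^ 2) ^ 2 := by ring
        _ ≤ α ^ 2 * (25 / 16) := mul_le_mul_of_nonneg_left this (sq_nonneg _)
        _ = _ := by ring
    linarith [sq_nonneg α]
  have e6 : 25 / ε ^ 2 * (α ^ 2 / 2 + (β ^ 2 + γ ^ 2) / 16) ≤
      (5 / ε) ^ 2 * ∑ k, dr ε y k ^ 2 * er ε k := by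
    rw [e3, e1]
    exact mul_le_mul_of_nonneg_left (by linarith) (by positivity)
  have key : 0 < ε ^ 2 * (c 2 ^ 2 + c 3 ^ 2 + c 1 ^ 2) + 2 * α * c 1 - (β * c 2 + γ * c 3) +
      25 / ε ^ 2 * (α ^ 2 / 2 + (β ^ 2 + γ ^ 2) / 16) +
      ε ^ 2 * (ε ^ 2 * (c 2 ^ 2 + c 3 ^ 2 + c 0 ^ 2) + 2 * α * c 0) := by
    have k1 : ε ^ 2 * (c 2 ^ 2 + c 3 ^ 2 + c 1 ^ 2) + 2 * α * c 1 - (β * c 2 + γ * c 3) +
      25 / ε ^ 2 * (α ^ 2 / 2 + (β ^ 2 + γ ^ 2) / 16) +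
      ε ^ 2 * (ε ^ 2 * (c 2 ^ 2 + c 3 ^ 2 + c 0 ^ 2) + 2 * α * c 0) =
      (ε ^ 2 * c 0 + α) ^ 2 + (ε * c 1 + α / ε) ^ 2 + (ε * c 2 - β / (2 * ε)) ^ 2 +
        (ε * c 3 - γ / (2 * ε)) ^ 2 + ε ^ 4 * (c 2 ^ 2 + c 3 ^ 2) +
        (23 / 2 / ε ^ 2 - 1) * α ^ 2 + (21 / 16) / ε ^ 2 * (β ^ 2 + γ ^ 2) := by
      field_simp
      ring
    rw [k1]
    have k2 : 1 < 23 / 2 / ε ^ 2 := by
      rw [lt_div_iff₀ (by positivity)]
      nlinarith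
    have k2' : 0 < 23 / 2 / ε ^ 2 - 1 := by linarith
    have k3 : 0 < (21 / 16) / ε ^ 2 := by positivity
    by_contra hcon
    rw [not_lt] at hcon
    have z1 : 0 ≤ (ε ^ 2 * c 0 + α) ^ 2 := sq_nonneg _
    have z2 : 0 ≤ (ε * c 1 + α / ε) ^ 2 := sq_nonneg _
    have z3 : 0 ≤ (ε * c 2 - β / (2 * ε)) ^ 2 := sq_nonneg _
    have z4 : 0 ≤ (ε * c 3 - γ / (2 * ε)) ^ 2 := sq_nonneg _
    have z5 : 0 ≤ ε ^ 4 * (c 2 ^ 2 + c 3 ^ 2) := by positivity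
    have z6 : 0 ≤ (23 / 2 / ε ^ 2 - 1) * α ^ 2 := by positivity
    have z7 : 0 ≤ (21 / 16) / ε ^ 2 * (β ^ 2 + γ ^ 2) := by positivity
    have w6 : α = 0 := by
      have : (23 / 2 / ε ^ 2 - 1) * α ^ 2 = 0 := by linarith
      rcases mul_eq_zero.mp this with h | h
      · linarith
      · exact pow_eq_zero_iff two_ne_zero |>.mp h
    have w7 : β ^ 2 + γ ^ 2 = 0 := by
      have : (21 / 16) / ε ^ 2 * (β ^ 2 + γ ^ 2) = 0 := by linarith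
      rcases mul_eq_zero.mp this with h | h
      · linarith
      · exact h
    have w5 : c 2 ^ 2 + c 3 ^ 2 = 0 := by
      have : ε ^ 4 * (c 2 ^ 2 + c 3 ^ 2) = 0 := by linarith
      rcases mul_eq_zero.mp this with h | h
      · have : 0 < ε ^ 4 := by positivity
        linarith
      · exact h
    have w1 : c 0 = 0 := by
      have h : (ε ^ 2 * c 0 + α) ^ 2 = 0 := by linarith
      have h' := pow_eq_zero_iff two_ne_zero |>.mp h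
      rw [w6, add_zero] at h'
      rcases mul_eq_zero.mp h' with h | h
      · have : 0 < ε ^ 2 := by positivity
        linarith
      · exact h
    have w2 : c 1 = 0 := by
      have h : (ε * c 1 + α / ε) ^ 2 = 0 := by linarith
      have h' := pow_eq_zero_iff two_ne_zero |>.mp h
      rw [w6, zero_div, add_zero] at h'
      rcases mul_eq_zero.mp h' with h | h
      · linarith
      · exact h
    obtain ⟨w3, w4⟩ := sq_sum_zero w5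
    obtain ⟨w8, w9⟩ := sq_sum_zero w7
    apply hy
    funext k
    rcases k with i | i
    · fin_cases i
      · exact w1
      · exact w2
      · exact w3
      · exact w4
    · fin_cases i
      · exact w8
      · exact w9
      · exact w6
  linarith

end Q96.JM
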