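import Pool.Agent.Q96.JM.Ex
import Pool.Agent.Q96.JM.Dif

/-!
The functions of the example: constancy and differentiability.
-/

set_option autoImplicit false

open scoped Matrix Matrix.Norms.L2Operator ComplexConjugate Topology
open Matrix Filter

namespace Q96.JM

lemma CC_XX (ε : ℝ) (y : Fin 4 → ℝ) (c : M2) : CC c * XX ε y = CC (c * ((ε : ℂ) • xs)) := by
  rw [XX_bl]
  unfold CC
  rw [bl_mul, m3_mul, zero_mul]
  simp only [mul_zero, zero_mul, add_zero]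

lemma CC_pow (ε : ℝ) (y : Fin 4 → ℝ) (c : M2) (r : ℕ) :
    CC c * XX ε y ^ r = CC (c * ((ε : ℂ) • xs) ^ r) := by
  induction r with
  | zero => rw [pow_zero, pow_zero, Matrix.mul_one, Matrix.mul_one]
  | succ r ih => rw [pow_succ, ← Matrix.mul_assoc, ih, CC_XX, pow_succ, Matrix.mul_assoc]

lemma pow_CC (ε : ℝ) (y : Fin 4 → ℝ) (c : M2) (r : ℕ) :
    (XX ε y)ᴴ ^ r * CC c = CC ((((ε : ℂ) • xs) ^ r)ᴴ * c) := by
  have h : (XX ε y)ᴴ ^ r * CC c = (CC cᴴ * XX ε y ^ r)ᴴ := by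
    rw [conjTranspose_mul, CC_conj, conjTranspose_conjTranspose, conjTranspose_pow]
  rw [h, CC_pow, CC_conj, conjTranspose_mul, conjTranspose_conjTranspose]

/-- the terms attached to the first four matrices do not depend on the parameter -/
lemma term_const (ε : ℝ) (y : Fin 4 → ℝ) (c : M2) (r : ℕ) :
    (1 - (XX ε y)ᴴ) * ((XX ε y)ᴴ ^ r * CC c * XX ε y ^ r) * (1 - XX ε y) =
      CC ((1 - ((ε : ℂ) • xs)ᴴ) * ((((ε : ℂ) • xs) ^ r)ᴴ * c * ((ε : ℂ) • xs) ^ r) *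
        (1 - (ε : ℂ) • xs)) := by
  have h1 : ∀ d : M2, CC d * (1 - XX ε y) = CC (d * (1 - (ε : ℂ) • xs)) := by
    intro d
    rw [Matrix.mul_sub, Matrix.mul_one, CC_XX, Matrix.mul_sub, Matrix.mul_one, sub_eq_add_neg,
      sub_eq_add_neg, ← CC_add]
    congr 1
    rw [← neg_one_smul ℂ (CC _), CC_smul, neg_one_smul]
  have h2 : ∀ d : M2, (1 - (XX ε y)ᴴ) * CC d = CC ((1 - ((ε : ℂ) • xs)ᴴ) * d) := by
    intro d
    have h : (1 - (XX ε y)ᴴ) * CC d = (CC dᴴ * (1 - XX ε y))ᴴ := by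
      rw [conjTranspose_mul, CC_conj, conjTranspose_conjTranspose, conjTranspose_sub,
        conjTranspose_one]
    rw [h, h1, CC_conj, conjTranspose_mul, conjTranspose_conjTranspose, conjTranspose_sub,
      conjTranspose_one]
  rw [pow_CC, CC_pow, h2, h1]

lemma cm_add (y z : Fin 4 → ℝ) : cm (y + z) = cm y + cm z := by
  ext i j
  fin_cases i <;> fin_cases j <;> simp [cm] <;> ring

lemma cm_smul (t : ℝ) (z : Fin 4 → ℝ) : cm (t • z) = (t : ℂ) • cm z := by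
  ext i j
  fin_cases i <;> fin_cases j <;> simp [cm] <;> ring

lemma zet_add (ε : ℝ) (y z : Fin 4 → ℝ) : zet ε (y + z) = zet ε y + zet ε z := by
  unfold zet
  rw [cm_add, Matrix.mul_add, Matrix.add_mul, Matrix.add_mul]
  module

lemma zet_smul (ε : ℝ) (t : ℝ) (z : Fin 4 → ℝ) : zet ε (t • z) = (t : ℂ) • zet ε z := by
  unfold zet
  rw [cm_smul, Matrix.mul_smul, Matrix.smul_mul, Matrix.smul_mul]
  module

lemma zet_zero (ε : ℝ) : zet ε 0 = 0 := by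
  have := zet_smul ε 0 0
  rw [smul_zero, Complex.ofReal_zero, zero_smul] at this
  exact this

lemma NN_add (ε : ℝ) (y z : Fin 4 → ℝ) : NN ε (y + z) = NN ε y + NN ε z := by
  unfold NN
  rw [zet_add, bl_add, m3_add]
  simp only [add_zero]

lemma NN_smul (ε : ℝ) (t : ℝ) (z : Fin 4 → ℝ) : NN ε (t • z) = (t : ℂ) • NN ε z := by
  unfold NN
  rw [zet_smul, bl_smul, m3_smul]
  simp only [smul_zero]

lemma XX_zero (ε : ℝ) : XX ε 0 = (ε : ℂ) • WW := by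
  unfold XX NN
  rw [zet_zero, m3_zero, bl_zero, add_zero]

/-- the correction as a linear map -/
noncomputable def NL (ε : ℝ) : (Fin 4 → ℝ) →ₗ[ℝ] Matrix I9 I9 ℂ where
  toFun := NN ε
  map_add' := NN_add ε
  map_smul' := fun t z => by
    rw [NN_smul]
    rfl

lemma XX_diff (ε : ℝ) (y : Fin 4 → ℝ) : DifferentiableAt ℝ (XX ε) y := by
  have h : XX ε = fun y => (ε : ℂ) • WW + (NL ε).toContinuousLinearMap y := by
    funext y
    rfl
  rw [h]
  exact (differentiableAt_const _).add ((NL ε).toContinuousLinearMap.differentiableAt)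

/-- the components of the jet map -/
noncomputable def ph (ε : ℝ) (V : I9 → ℂ) (j : I7) (y : Fin 4 → ℝ) : ℝ :=
  (star V ⬝ᵥ (((1 - (XX ε y)ᴴ) * (∑' r : ℕ, (XX ε y)ᴴ ^ r * Aex ε j * (XX ε y) ^ r) *
    (1 - XX ε y)) *ᵥ V)).re

lemma ph_diff (ε : ℝ) (V : I9 → ℂ) (j : I7) (h : ‖XX ε 0‖ < 1) :
    DifferentiableAt ℝ (ph ε V j) 0 := by
  have hX := XX_diff ε 0
  have hXs : DifferentiableAt ℝ (fun y => (XX ε y)ᴴ) 0 := hX.star
  have hK : DifferentiableAt ℝ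
      (fun y => ∑' r : ℕ, (XX ε y)ᴴ ^ r * Aex ε j * (XX ε y) ^ r) 0 := by
    refine diff_K_abs hX hXs ?_ (Aex ε j)
    rw [Matrix.l2_opNorm_conjTranspose]
    nlinarith [norm_nonneg (XX ε 0)]
  have h1 : DifferentiableAt ℝ (fun y => (1 - (XX ε y)ᴴ) *
      (∑' r : ℕ, (XX ε y)ᴴ ^ r * Aex ε j * (XX ε y) ^ r) * (1 - XX ε y)) 0 :=
    (((differentiableAt_const _).sub hXs).mul hK).mul ((differentiableAt_const _).sub hX)
  exact ((qf V).differentiableAt).comp 0 h1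

lemma ph_const (ε : ℝ) (V : I9 → ℂ) (i : Fin 4) (y : Fin 4 → ℝ) (h : ‖XX ε y‖ < 1)
    (h0 : ‖XX ε 0‖ < 1) : ph ε V (Sum.inl i) y = ph ε V (Sum.inl i) 0 := by
  have key : ∀ y : Fin 4 → ℝ, ‖XX ε y‖ < 1 → (1 - (XX ε y)ᴴ) *
      (∑' r : ℕ, (XX ε y)ᴴ ^ r * Aex ε (Sum.inl i) * (XX ε y) ^ r) * (1 - XX ε y) =
      ∑' r : ℕ, CC ((1 - ((ε : ℂ) • xs)ᴴ) * ((((ε : ℂ) • xs) ^ r)ᴴ * cm (Pi.single i 1) *
        ((ε : ℂ) • xs) ^ r) * (1 - (ε : ℂ) • xs)) := by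
    intro y hy
    have hs := summ (XX ε y) (Aex ε (Sum.inl i)) hy
    rw [← hs.tsum_mul_left, ← (hs.mul_left _).tsum_mul_right]
    refine tsum_congr fun r => ?_
    exact term_const ε y _ r
  unfold ph
  rw [key y h, key 0 h0]

end Q96.JM
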